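import Mathlib

/-!
# Counting cliques through a vertex when every edge lies in an `l`-clique
-/

namespace Pool.Agent.Q111.CliqueCount

open Finset

variable {V : Type*} [Fintype V] [DecidableEq V] (H : SimpleGraph V) [DecidableRel H.Adj]

/-- Common neighbourhood of a set of vertices. -/
def cn (Q : Finset V) : Finset V := univ.filter (fun v => ∀ q ∈ Q, H.Adj q v)

/-- The `r`-cliques containing the vertex `a`. -/
def K (a : V) (r : ℕ) : Finset (Finset V) := (H.cliqueFinset r).filter (fun Q => a ∈ Q)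

variable {H}

lemma mem_cn {Q : Finset V} {v : V} : v ∈ cn H Q ↔ ∀ q ∈ Q, H.Adj q v := by
  simp [cn]

lemma mem_K {a : V} {r : ℕ} {Q : Finset V} : Q ∈ K H a r ↔ H.IsNClique r Q ∧ a ∈ Q := by
  simp [K, SimpleGraph.mem_cliqueFinset_iff]

lemma not_mem_of_mem_cn {Q : Finset V} {v : V} (h : v ∈ cn H Q) : v ∉ Q := by
  intro hv
  exact H.loopless.irrefl v (mem_cn.mp h v hv)

/-- Pairs (clique, removable vertex) correspond to pairs (clique, common neighbour). -/
lemma swap_sum (a : V) (r : ℕ) (f : Finset V → V → ℝ) :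
    ∑ Q ∈ K H a (r + 1), ∑ q ∈ Q.erase a, f (Q.erase q) q
      = ∑ R ∈ K H a r, ∑ v ∈ cn H R, f R v := by
  rw [Finset.sum_sigma', Finset.sum_sigma']
  refine Finset.sum_bij' (fun x _ => (⟨x.1.erase x.2, x.2⟩ : Σ _ : Finset V, V))
    (fun x _ => (⟨insert x.2 x.1, x.2⟩ : Σ _ : Finset V, V)) ?_ ?_ ?_ ?_ ?_
  · rintro ⟨Q, q⟩ h
    simp only [Finset.mem_sigma, Finset.mem_erase] at h ⊢
    obtain ⟨hQ, hqa, hqQ⟩ := h
    rw [mem_K] at hQ
    refine ⟨mem_K.mpr ⟨?_, ?_⟩, ?_⟩
    · have := hQ.1.erase_of_mem hqQ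
      simpa using this
    · exact Finset.mem_erase.mpr ⟨fun h => hqa h.symm, hQ.2⟩
    · rw [mem_cn]
      intro p hp
      have hp' := Finset.mem_erase.mp hp
      exact hQ.1.isClique hp'.2 hqQ hp'.1
  · rintro ⟨R, v⟩ h
    simp only [Finset.mem_sigma] at h ⊢
    obtain ⟨hR, hv⟩ := h
    have hR' := mem_K.mp hR
    have hv' := mem_cn.mp hv
    refine ⟨mem_K.mpr ⟨?_, ?_⟩, ?_⟩
    · exact hR'.1.insert (fun b hb => (hv' b hb).symm)
    · exact Finset.mem_insert_of_mem hR'.2
    · refine Finset.mem_erase.mpr ⟨?_, Finset.mem_insert_self _ _⟩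
      intro hva
      exact not_mem_of_mem_cn hv (hva ▸ hR'.2)
  · rintro ⟨Q, q⟩ h
    simp only [Finset.mem_sigma, Finset.mem_erase] at h
    simp [Finset.insert_erase h.2.2]
  · rintro ⟨R, v⟩ h
    simp only [Finset.mem_sigma] at h
    simp [Finset.erase_insert (not_mem_of_mem_cn h.2)]
  · rintro ⟨Q, q⟩ h
    rfl

/-- `∑_{R} |N(R)| = r * (number of (r+1)-cliques at a)`. -/
lemma sum_card_cn (a : V) (r : ℕ) :
    ∑ R ∈ K H a r, ((cn H R).card : ℝ) = r * ((K H a (r + 1)).card : ℝ) := by
  have h := swap_sum (H := H) a r (fun _ _ => (1 : ℝ))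
  simp only [Finset.sum_const, nsmul_eq_mul, mul_one] at h
  rw [← h]
  have : ∀ Q ∈ K H a (r + 1), (((Q.erase a).card : ℕ) : ℝ) = r := by
    intro Q hQ
    have hQ' := mem_K.mp hQ
    rw [Finset.card_erase_of_mem hQ'.2, hQ'.1.card_eq]
    simp
  rw [Finset.sum_congr rfl this, Finset.sum_const, nsmul_eq_mul, mul_comm]

/-- The local counting inequality behind the Moon–Moser inequality. -/
lemma local_count (a : V) (s : ℕ) (hs : 2 ≤ s) {Q : Finset V} (hQ : Q ∈ K H a s) :
    ∑ q ∈ Q.erase a, ((cn H (Q.erase q)).card : ℝ)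
      ≤ (H.degree a : ℝ) + (s - 2) * ((cn H Q).card : ℝ) := by
  have hQ' := mem_K.mp hQ
  have hcard : (Q.erase a).card = s - 1 := by
    rw [Finset.card_erase_of_mem hQ'.2, hQ'.1.card_eq]
  have h1 : ∑ q ∈ Q.erase a, ((cn H (Q.erase q)).card : ℝ)
      = ∑ v : V, (((Q.erase a).filter (fun q => v ∈ cn H (Q.erase q))).card : ℝ) := by
    have : ∀ q ∈ Q.erase a, ((cn H (Q.erase q)).card : ℝ)
        = ∑ v : V, if v ∈ cn H (Q.erase q) then (1 : ℝ) else 0 := by
      intro q _
      rw [Finset.sum_boole]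
      simp
    rw [Finset.sum_congr rfl this, Finset.sum_comm]
    refine Finset.sum_congr rfl fun v _ => ?_
    rw [Finset.sum_boole]
  rw [h1]
  have h2 : ∀ v : V, (((Q.erase a).filter (fun q => v ∈ cn H (Q.erase q))).card : ℝ)
      ≤ (if v ∈ H.neighborFinset a then (1 : ℝ) else 0)
        + (s - 2) * (if v ∈ cn H Q then (1 : ℝ) else 0) := by
    intro v
    by_cases hv : v ∈ cn H Q
    · have hva : v ∈ H.neighborFinset a := by
        rw [SimpleGraph.mem_neighborFinset]
        exact mem_cn.mp hv a hQ'.2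
      rw [if_pos hv, if_pos hva]
      have : ((Q.erase a).filter (fun q => v ∈ cn H (Q.erase q))).card ≤ s - 1 := by
        rw [← hcard]; exact Finset.card_filter_le _ _
      have h3 : (((Q.erase a).filter (fun q => v ∈ cn H (Q.erase q))).card : ℝ) ≤ ((s - 1 : ℕ) : ℝ) := by
        exact_mod_cast this
      rw [Nat.cast_sub (by omega)] at h3
      push_cast at h3
      linarith
    · rw [if_neg hv]
      have hle : ((Q.erase a).filter (fun q => v ∈ cn H (Q.erase q))).card ≤ 1 := by
        rw [Finset.card_le_one]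
        intro p hp q hq
        by_contra hpq
        apply hv
        rw [mem_cn]
        intro x hx
        rw [Finset.mem_filter] at hp hq
        by_cases hxp : x = p
        · exact mem_cn.mp hq.2 x (Finset.mem_erase.mpr ⟨by rw [hxp]; exact hpq, hx⟩)
        · exact mem_cn.mp hp.2 x (Finset.mem_erase.mpr ⟨hxp, hx⟩)
      by_cases hva : v ∈ H.neighborFinset a
      · rw [if_pos hva]
        have : (((Q.erase a).filter (fun q => v ∈ cn H (Q.erase q))).card : ℝ) ≤ 1 := by
          exact_mod_cast hle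
        linarith
      · rw [if_neg hva]
        have : ((Q.erase a).filter (fun q => v ∈ cn H (Q.erase q))) = ∅ := by
          rw [Finset.filter_eq_empty_iff]
          intro q hq hvq
          apply hva
          rw [SimpleGraph.mem_neighborFinset]
          exact mem_cn.mp hvq a (Finset.mem_erase.mpr
            ⟨fun h => (Finset.mem_erase.mp hq).1 h.symm, hQ'.2⟩)
        rw [this]; simp
  refine (Finset.sum_le_sum fun v _ => h2 v).trans ?_
  rw [Finset.sum_add_distrib, ← Finset.mul_sum, Finset.sum_boole, Finset.sum_boole]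
  have e1 : (univ.filter (fun v => v ∈ H.neighborFinset a)).card = H.degree a := by
    rw [← SimpleGraph.card_neighborFinset_eq_degree]
    congr 1
    ext v; simp
  have e2 : (univ.filter (fun v => v ∈ cn H Q)).card = (cn H Q).card := by
    congr 1
    ext v; simp
  rw [e1, e2]

/-- Sum form: `(∑_R |N(R)|)² ≤ κ_{s-1} (d κ_s + (s-2) s κ_{s+1})`, `s = r + 1`. -/
lemma moon_moser (a : V) (r : ℕ) (hr : 1 ≤ r) :
    ((r : ℝ) * (K H a (r + 1)).card) ^ 2
      ≤ (K H a r).card * ((H.degree a : ℝ) * (K H a (r + 1)).card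
          + (r - 1) * ((r + 1) * (K H a (r + 2)).card)) := by
  have h1 : ∑ R ∈ K H a r, ((cn H R).card : ℝ) ^ 2
      ≤ (H.degree a : ℝ) * (K H a (r + 1)).card + (r - 1) * ((r + 1) * (K H a (r + 2)).card) := by
    have h := swap_sum (H := H) a r (fun R _ => ((cn H R).card : ℝ))
    have h2 : ∑ R ∈ K H a r, ∑ _v ∈ cn H R, ((cn H R).card : ℝ)
        = ∑ R ∈ K H a r, ((cn H R).card : ℝ) ^ 2 := by
      refine Finset.sum_congr rfl fun R _ => ?_
      rw [Finset.sum_const, nsmul_eq_mul]; ring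
    rw [← h2, ← h]
    refine (Finset.sum_le_sum fun Q hQ => local_count (H := H) a (r + 1) (by omega) hQ).trans ?_
    rw [Finset.sum_add_distrib, ← Finset.mul_sum, sum_card_cn (H := H) a (r + 1),
      Finset.sum_const, nsmul_eq_mul]
    push_cast
    apply le_of_eq
    ring
  have h3 := sq_sum_le_card_mul_sum_sq (s := K H a r) (f := fun R => ((cn H R).card : ℝ))
  rw [sum_card_cn] at h3
  exact h3.trans (mul_le_mul_of_nonneg_left h1 (by positivity))

end Pool.Agent.Q111.CliqueCount
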