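import Mathlib
import Pool.Agent.Q111.CliqueCount

/-!
# Graphs in which every edge lies in an `l`-clique: edges versus `l`-cliques
-/

namespace Pool.Agent.Q111.CliqueCount

open Finset

variable {V : Type*} [Fintype V] [DecidableEq V] {H : SimpleGraph V} [DecidableRel H.Adj]

lemma cn_subset_neighbors {a : V} {r : ℕ} {Q : Finset V} (hQ : Q ∈ K H a r) :
    cn H Q ⊆ H.neighborFinset a := by
  intro v hv
  rw [SimpleGraph.mem_neighborFinset]
  exact mem_cn.mp hv a (mem_K.mp hQ).2

/-- Sub-cliques of a clique. -/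
lemma exists_sub {a c : V} {l r : ℕ} {T : Finset V} (hT : T ∈ K H a l) (hc : c ∈ T) (hca : c ≠ a)
    (hr : 2 ≤ r) (hrl : r ≤ l) : ∃ Q ∈ K H a r, c ∈ Q ∧ Q ⊆ T := by
  have hT' := mem_K.mp hT
  have hsub : ({a, c} : Finset V) ⊆ T := by
    intro x hx
    simp only [Finset.mem_insert, Finset.mem_singleton] at hx
    rcases hx with rfl | rfl
    · exact hT'.2
    · exact hc
  have hcard : ({a, c} : Finset V).card = 2 := Finset.card_pair (Ne.symm hca)
  obtain ⟨Q, hQ1, hQ2, hQ3⟩ := Finset.exists_subsuperset_card_eq (n := r) hsub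
    (by rw [hcard]; exact hr) (by rw [hT'.1.card_eq]; exact hrl)
  refine ⟨Q, mem_K.mpr ⟨⟨?_, hQ3⟩, ?_⟩, ?_, hQ2⟩
  · exact hT'.1.isClique.subset (by exact_mod_cast hQ2)
  · exact hQ1 (by simp)
  · exact hQ1 (by simp)

/-- If every edge at `a` lies in an `l`-clique then `d(a) ≤ (r-1) κ_r(a)` for `2 ≤ r ≤ l`. -/
lemma degree_le {a : V} {l r : ℕ} (hE : ∀ c, H.Adj a c → ∃ T ∈ K H a l, c ∈ T)
    (hr : 2 ≤ r) (hrl : r ≤ l) : (H.degree a : ℝ) ≤ ((r : ℝ) - 1) * (K H a r).card := by
  have h1 : H.neighborFinset a ⊆ (K H a r).biUnion (fun Q => Q.erase a) := by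
    intro c hc
    rw [SimpleGraph.mem_neighborFinset] at hc
    obtain ⟨T, hT, hcT⟩ := hE c hc
    obtain ⟨Q, hQ, hcQ, _⟩ := exists_sub hT hcT hc.ne' hr hrl
    rw [Finset.mem_biUnion]
    exact ⟨Q, hQ, Finset.mem_erase.mpr ⟨hc.ne', hcQ⟩⟩
  have h2 := Finset.card_le_card h1
  have h3 : ((K H a r).biUnion (fun Q => Q.erase a)).card ≤ (K H a r).card * (r - 1) := by
    refine Finset.card_biUnion_le_card_mul _ _ _ ?_
    intro Q hQ
    have hQ' := mem_K.mp hQ
    rw [Finset.card_erase_of_mem hQ'.2, hQ'.1.card_eq]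
  rw [SimpleGraph.card_neighborFinset_eq_degree] at h2
  have h4 : H.degree a ≤ (K H a r).card * (r - 1) := h2.trans h3
  have h5 : (H.degree a : ℝ) ≤ ((K H a r).card : ℝ) * ((r - 1 : ℕ) : ℝ) := by exact_mod_cast h4
  rw [Nat.cast_sub (by omega)] at h5
  push_cast at h5
  linarith

/-- Main local step: a common neighbourhood is almost independent, and independent neighbours of
`a` lie in different `l`-cliques. -/
lemma cn_card_le {a : V} {l : ℕ} (hl : 2 ≤ l) (hE : ∀ c, H.Adj a c → ∃ T ∈ K H a l, c ∈ T)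
    {Q : Finset V} (hQ : Q ∈ K H a (l - 2)) :
    (cn H Q).card ≤ (K H a l).card + ((K H a l).filter (fun T => Q ⊆ T)).card := by
  classical
  have : Nonempty V := ⟨a⟩
  have hQ' := mem_K.mp hQ
  -- choice of a vertex outside `Q` in each clique above `Q`
  have hch : ∀ T ∈ (K H a l).filter (fun T => Q ⊆ T), ∃ x, x ∈ T ∧ x ∉ Q := by
    intro T hT
    rw [Finset.mem_filter] at hT
    have hT' := mem_K.mp hT.1
    by_contra hcon
    push Not at hcon
    have : T.card ≤ Q.card := Finset.card_le_card hcon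
    rw [hT'.1.card_eq, hQ'.1.card_eq] at this
    omega
  choose! g hg using hch
  set B := ((K H a l).filter (fun T => Q ⊆ T)).image g with hB
  set I := cn H Q \ B with hI
  have hBc : B.card ≤ ((K H a l).filter (fun T => Q ⊆ T)).card := Finset.card_image_le
  have hind : ∀ u ∈ I, ∀ v ∈ I, ¬ H.Adj u v := by
    intro u hu v hv huv
    rw [hI, Finset.mem_sdiff] at hu hv
    have hvQ := not_mem_of_mem_cn hv.1
    have huQ := not_mem_of_mem_cn hu.1
    have c1 : H.IsNClique (l - 2 + 1) (insert v Q) :=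
      hQ'.1.insert (fun b hb => (mem_cn.mp hv.1 b hb).symm)
    have c2 : H.IsNClique (l - 2 + 1 + 1) (insert u (insert v Q)) := by
      refine c1.insert ?_
      intro b hb
      rw [Finset.mem_insert] at hb
      rcases hb with rfl | hb
      · exact huv
      · exact (mem_cn.mp hu.1 b hb).symm
    have hl2 : l - 2 + 1 + 1 = l := by omega
    rw [hl2] at c2
    have hT : insert u (insert v Q) ∈ (K H a l).filter (fun T => Q ⊆ T) := by
      rw [Finset.mem_filter]
      refine ⟨mem_K.mpr ⟨c2, ?_⟩, ?_⟩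
      · exact Finset.mem_insert_of_mem (Finset.mem_insert_of_mem hQ'.2)
      · exact (Finset.subset_insert _ _).trans (Finset.subset_insert _ _)
    obtain ⟨g1, g2⟩ := hg _ hT
    rw [Finset.mem_insert, Finset.mem_insert] at g1
    rcases g1 with h | h | h
    · exact hu.2 (by rw [hB, Finset.mem_image]; exact ⟨_, hT, h⟩)
    · exact hv.2 (by rw [hB, Finset.mem_image]; exact ⟨_, hT, h⟩)
    · exact g2 h
  have hIc : I.card ≤ (K H a l).card := by
    have hex : ∀ c ∈ I, ∃ T ∈ K H a l, c ∈ T := by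
      intro c hc
      rw [hI, Finset.mem_sdiff] at hc
      exact hE c (mem_cn.mp hc.1 a hQ'.2)
    choose! T hT1 hT2 using hex
    refine Finset.card_le_card_of_injOn T (fun c hc => hT1 c hc) ?_
    intro c hc c' hc' hcc
    by_contra hne
    have h1 := hT2 c hc
    have h2 := hT2 c' hc'
    have hcc' : T c = T c' := hcc
    rw [← hcc'] at h2
    exact hind c hc c' hc' ((mem_K.mp (hT1 c hc)).1.isClique h1 h2 hne)
  have hfin : (cn H Q).card ≤ I.card + B.card := by
    have := Finset.card_le_card_sdiff_add_card (s := cn H Q) (t := B)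
    rw [hI]; exact this
  omega

lemma sum_filter_le (a : V) (l : ℕ) (hl : 4 ≤ l) :
    ∑ Q ∈ K H a (l - 2), ((K H a l).filter (fun T => Q ⊆ T)).card
      ≤ (K H a l).card * (l - 1).choose 2 := by
  have h1 : ∑ Q ∈ K H a (l - 2), ((K H a l).filter (fun T => Q ⊆ T)).card
      = ∑ T ∈ K H a l, ((K H a (l - 2)).filter (fun Q => Q ⊆ T)).card := by
    simp only [Finset.card_filter]
    rw [Finset.sum_comm]
  rw [h1]
  refine (Finset.sum_le_card_nsmul _ _ ((l - 1).choose 2) ?_).trans (by simp)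
  intro T hT
  have hT' := mem_K.mp hT
  have hc : (T.erase a).card = l - 1 := by
    rw [Finset.card_erase_of_mem hT'.2, hT'.1.card_eq]
  rw [← hc, ← Finset.card_powersetCard]
  refine Finset.card_le_card_of_injOn (fun Q => T \ Q) ?_ ?_
  · intro Q hQ
    rw [Finset.mem_coe, Finset.mem_filter] at hQ
    have hQ' := mem_K.mp hQ.1
    rw [Finset.mem_coe, Finset.mem_powersetCard]
    refine ⟨?_, ?_⟩
    · intro x hx
      rw [Finset.mem_sdiff] at hx
      exact Finset.mem_erase.mpr ⟨fun h => hx.2 (h ▸ hQ'.2), hx.1⟩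
    · rw [Finset.card_sdiff_of_subset hQ.2, hT'.1.card_eq, hQ'.1.card_eq]
      omega
  · intro Q hQ Q' hQ' hQQ
    rw [Finset.mem_coe, Finset.mem_filter] at hQ hQ'
    have h : T \ Q = T \ Q' := hQQ
    have := congrArg (fun s => T \ s) h
    simp only [Finset.sdiff_sdiff_eq_self hQ.2, Finset.sdiff_sdiff_eq_self hQ'.2] at this
    exact this

/-- `X_{l-2} κ_{l-2} ≤ κ_l (κ_{l-2} + C(l-1,2))`. -/
lemma sum_cn_le {a : V} {l : ℕ} (hl : 4 ≤ l) (hE : ∀ c, H.Adj a c → ∃ T ∈ K H a l, c ∈ T) :
    ((l : ℝ) - 2) * (K H a (l - 1)).card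
      ≤ (K H a l).card * ((K H a (l - 2)).card + ((l - 1).choose 2 : ℝ)) := by
  have h1 := sum_card_cn (H := H) a (l - 2)
  have e1 : l - 2 + 1 = l - 1 := by omega
  rw [e1, Nat.cast_sub (by omega)] at h1
  push_cast at h1
  rw [← h1]
  have h2 : ∑ Q ∈ K H a (l - 2), (cn H Q).card
      ≤ ∑ Q ∈ K H a (l - 2), ((K H a l).card + ((K H a l).filter (fun T => Q ⊆ T)).card) :=
    Finset.sum_le_sum fun Q hQ => cn_card_le (by omega) hE hQ
  rw [Finset.sum_add_distrib, Finset.sum_const, smul_eq_mul] at h2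
  have h3 := sum_filter_le (H := H) a l hl
  have h4 : ∑ Q ∈ K H a (l - 2), (cn H Q).card
      ≤ (K H a (l - 2)).card * (K H a l).card + (K H a l).card * (l - 1).choose 2 := by
    omega
  have h5 : ((∑ Q ∈ K H a (l - 2), (cn H Q).card : ℕ) : ℝ)
      ≤ (((K H a (l - 2)).card * (K H a l).card + (K H a l).card * (l - 1).choose 2 : ℕ) : ℝ) := by
    exact_mod_cast h4
  push_cast at h5
  linarith

/-- There are `r`-cliques at `a` for all `1 ≤ r ≤ l`, if `a` has a neighbour. -/
lemma K_pos {a : V} {l r : ℕ} (hE : ∀ c, H.Adj a c → ∃ T ∈ K H a l, c ∈ T)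
    (hd : 0 < H.degree a) (hr : 2 ≤ r) (hrl : r ≤ l) : (0 : ℝ) < (K H a r).card := by
  have h := degree_le hE hr hrl
  have hd' : (0 : ℝ) < H.degree a := by exact_mod_cast hd
  by_contra hcon
  have h0 : ((K H a r).card : ℝ) = 0 := le_antisymm (not_lt.mp hcon) (by positivity)
  rw [h0] at h
  linarith

/-- The averages `X_r = r κ_{r+1} / κ_r`. -/
noncomputable def X (H : SimpleGraph V) [DecidableRel H.Adj] (a : V) (r : ℕ) : ℝ :=
  r * (K H a (r + 1)).card / (K H a r).card

lemma X_step {a : V} {l r : ℕ} (hE : ∀ c, H.Adj a c → ∃ T ∈ K H a l, c ∈ T)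
    (hd : 0 < H.degree a) (hr : 2 ≤ r) (hrl : r + 1 ≤ l) :
    (r : ℝ) * X H a r ≤ H.degree a + (r - 1) * X H a (r + 1) := by
  have h1 := K_pos hE hd hr (by omega)
  have h2 := K_pos hE hd (r := r + 1) (by omega) (by omega)
  have h := moon_moser (H := H) a r (by omega)
  have e1 : (r : ℝ) * X H a r = ((r : ℝ) * (K H a (r + 1)).card) ^ 2
      / ((K H a r).card * (K H a (r + 1)).card) := by
    unfold X
    field_simp
  have e2 : (H.degree a : ℝ) + (r - 1) * X H a (r + 1)
      = ((K H a r).card * ((H.degree a : ℝ) * (K H a (r + 1)).card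
          + (r - 1) * ((r + 1) * (K H a (r + 2)).card)))
        / ((K H a r).card * (K H a (r + 1)).card) := by
    unfold X
    push_cast
    field_simp
  rw [e1, e2]
  gcongr

lemma X_ge {a : V} {l : ℕ} (hE : ∀ c, H.Adj a c → ∃ T ∈ K H a l, c ∈ T)
    (hd : 0 < H.degree a) (r : ℕ) (hr : 2 ≤ r) (hrl : r ≤ l) :
    (H.degree a : ℝ) - X H a r ≤ (r - 1) * (H.degree a - X H a 2) := by
  induction r, hr using Nat.le_induction with
  | base => norm_num
  | succ r hr ih =>
    have h1 := ih (by omega)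
    have h2 := X_step hE hd hr hrl
    have hr' : (2 : ℝ) ≤ r := by exact_mod_cast hr
    push_cast
    have h3 : ((r : ℝ) - 1) * (H.degree a - X H a (r + 1)) ≤ r * (H.degree a - X H a r) := by
      linarith
    have h4 : (r : ℝ) * (H.degree a - X H a r)
        ≤ r * ((r - 1) * (H.degree a - X H a 2)) := by
      gcongr
    have h5 : ((r : ℝ) - 1) * (H.degree a - X H a (r + 1))
        ≤ (r - 1) * ((r + 1 - 1) * (H.degree a - X H a 2)) := by
      linarith
    exact le_of_mul_le_mul_left h5 (by linarith)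

/-- `κ_2 = d`. -/
lemma K_two (a : V) : (K H a 2).card = H.degree a := by
  have h := sum_card_cn (H := H) a 1
  have h1 : K H a 1 = {{a}} := by
    ext Q
    rw [mem_K, Finset.mem_singleton]
    constructor
    · rintro ⟨hQ, ha⟩
      obtain ⟨b, hb⟩ := Finset.card_eq_one.mp hQ.card_eq
      rw [hb, Finset.mem_singleton] at ha
      rw [hb, ha]
    · rintro rfl
      refine ⟨⟨?_, by simp⟩, by simp⟩
      simp [SimpleGraph.IsClique, Set.Pairwise]
  have h2 : cn H {a} = H.neighborFinset a := by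
    ext v; simp [mem_cn]
  rw [h1, Finset.sum_singleton, h2, SimpleGraph.card_neighborFinset_eq_degree] at h
  push_cast at h
  rw [one_mul] at h
  exact_mod_cast h.symm

lemma X_two_mul (a : V) :
    ∑ R ∈ K H a 2, ((cn H R).card : ℝ)
      = ∑ b ∈ H.neighborFinset a, ((cn H {a, b}).card : ℝ) := by
  have h := swap_sum (H := H) a 1 (fun R v => ((cn H (insert v R)).card : ℝ))
  have h1 : K H a 1 = {{a}} := by
    ext Q
    rw [mem_K, Finset.mem_singleton]
    constructor
    · rintro ⟨hQ, ha⟩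
      obtain ⟨b, hb⟩ := Finset.card_eq_one.mp hQ.card_eq
      rw [hb, Finset.mem_singleton] at ha
      rw [hb, ha]
    · rintro rfl
      refine ⟨⟨?_, by simp⟩, by simp⟩
      simp [SimpleGraph.IsClique, Set.Pairwise]
  have h2 : cn H {a} = H.neighborFinset a := by
    ext v; simp [mem_cn]
  rw [h1, Finset.sum_singleton, h2] at h
  have h3 : ∀ Q ∈ K H a 2, ∑ q ∈ Q.erase a, ((cn H (insert q (Q.erase q))).card : ℝ)
      = ((cn H Q).card : ℝ) := by
    intro Q hQ
    have hQ' := mem_K.mp hQ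
    have hc : (Q.erase a).card = 1 := by
      rw [Finset.card_erase_of_mem hQ'.2, hQ'.1.card_eq]
    have : ∀ q ∈ Q.erase a, ((cn H (insert q (Q.erase q))).card : ℝ) = (cn H Q).card := by
      intro q hq
      rw [Finset.insert_erase (Finset.mem_erase.mp hq).2]
    rw [Finset.sum_congr rfl this, Finset.sum_const, hc, one_smul]
  rw [Finset.sum_congr rfl h3] at h
  rw [h]
  refine Finset.sum_congr rfl fun b _ => ?_
  rw [Finset.pair_comm]

lemma cn_pair_ge (a b : V) :
    (H.degree a : ℝ) + H.degree b - Fintype.card V ≤ ((cn H {a, b}).card : ℝ) := by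
  have h1 : cn H {a, b} = H.neighborFinset a ∩ H.neighborFinset b := by
    ext v; simp [mem_cn]
  rw [h1]
  have h2 := Finset.card_union_add_card_inter (H.neighborFinset a) (H.neighborFinset b)
  have h3 : (H.neighborFinset a ∪ H.neighborFinset b).card ≤ Fintype.card V :=
    Finset.card_le_univ _
  rw [SimpleGraph.card_neighborFinset_eq_degree, SimpleGraph.card_neighborFinset_eq_degree] at h2
  have h4 : H.degree a + H.degree b
      ≤ Fintype.card V + (H.neighborFinset a ∩ H.neighborFinset b).card := by omega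
  have h5 : (H.degree a : ℝ) + H.degree b
      ≤ Fintype.card V + ((H.neighborFinset a ∩ H.neighborFinset b).card : ℝ) := by
    exact_mod_cast h4
  linarith

/-- Lower bound for the number of `l`-cliques at `a`. -/
lemma local_bound {a : V} {l : ℕ} (hl : 4 ≤ l) (hE : ∀ c, H.Adj a c → ∃ T ∈ K H a l, c ∈ T) :
    (H.degree a : ℝ) - (l - 3) * Fintype.card V
        + (l - 3) * ((∑ b ∈ H.neighborFinset a, (H.degree b : ℝ)) / H.degree a)
        - ((l - 1).choose 2 : ℝ) * (l - 3)
      ≤ (K H a l).card := by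
  have hl' : (4 : ℝ) ≤ l := by exact_mod_cast hl
  have hC : (0 : ℝ) ≤ ((l - 1).choose 2 : ℝ) := by positivity
  rcases Nat.eq_zero_or_pos (H.degree a) with hd | hd
  · have hn : H.neighborFinset a = ∅ := by
      rw [← Finset.card_eq_zero, SimpleGraph.card_neighborFinset_eq_degree, hd]
    rw [hn, hd]
    simp only [Finset.sum_empty, zero_div, mul_zero, Nat.cast_zero, add_zero, zero_sub]
    have h1 : (0 : ℝ) ≤ (l - 3) * Fintype.card V := by
      apply mul_nonneg; linarith; positivity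
    have h2 : (0 : ℝ) ≤ ((l - 1).choose 2 : ℝ) * (l - 3) := by
      apply mul_nonneg hC; linarith
    have h3 : (0 : ℝ) ≤ (K H a l).card := by positivity
    linarith
  · have hd' : (0 : ℝ) < H.degree a := by exact_mod_cast hd
    set d : ℝ := (H.degree a : ℝ) with hdd
    have hk := K_pos hE hd (r := l - 2) (by omega) (by omega)
    -- X_2
    have hX2 : X H a 2 * d = ∑ b ∈ H.neighborFinset a, ((cn H {a, b}).card : ℝ) := by
      rw [← X_two_mul, sum_card_cn]
      unfold X
      rw [K_two, ← hdd]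
      field_simp
    have hX2ge : d - Fintype.card V + (∑ b ∈ H.neighborFinset a, (H.degree b : ℝ)) / d
        ≤ X H a 2 := by
      have h1 : ∑ b ∈ H.neighborFinset a, (d + (H.degree b : ℝ) - Fintype.card V)
          ≤ X H a 2 * d := by
        rw [hX2]
        exact Finset.sum_le_sum fun b _ => cn_pair_ge a b
      rw [Finset.sum_sub_distrib, Finset.sum_add_distrib, Finset.sum_const, Finset.sum_const,
        SimpleGraph.card_neighborFinset_eq_degree, nsmul_eq_mul, nsmul_eq_mul, ← hdd] at h1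
      have h2 : d - Fintype.card V + (∑ b ∈ H.neighborFinset a, (H.degree b : ℝ)) / d
          = (d * d + ∑ b ∈ H.neighborFinset a, (H.degree b : ℝ) - d * Fintype.card V) / d := by
        field_simp
        ring
      rw [h2, div_le_iff₀ hd']
      linarith
    have hX2le : X H a 2 ≤ d := by
      have h1 : X H a 2 * d ≤ d * d := by
        rw [hX2]
        have : ∀ b ∈ H.neighborFinset a, ((cn H {a, b}).card : ℝ) ≤ d := by
          intro b _
          have h3 : cn H {a, b} ⊆ H.neighborFinset a := by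
            intro v hv
            rw [SimpleGraph.mem_neighborFinset]
            exact mem_cn.mp hv a (by simp)
          have h4 := Finset.card_le_card h3
          rw [SimpleGraph.card_neighborFinset_eq_degree] at h4
          rw [hdd]; exact_mod_cast h4
        refine (Finset.sum_le_card_nsmul _ _ _ this).trans ?_
        rw [SimpleGraph.card_neighborFinset_eq_degree, nsmul_eq_mul, ← hdd]
      exact le_of_mul_le_mul_right h1 hd'
    have hXl := X_ge hE hd (l - 2) (by omega) (by omega)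
    rw [Nat.cast_sub (by omega)] at hXl
    push_cast at hXl
    rw [← hdd] at hXl
    -- κ_l
    set kl : ℝ := ((K H a l).card : ℝ) with hkl
    have hs := sum_cn_le hl hE
    rw [← hkl] at hs
    have hXk : X H a (l - 2) * (K H a (l - 2)).card = ((l : ℝ) - 2) * (K H a (l - 1)).card := by
      unfold X
      have e1 : l - 2 + 1 = l - 1 := by omega
      rw [e1, Nat.cast_sub (by omega)]
      push_cast
      field_simp
    rw [← hXk] at hs
    have hdk := degree_le hE (r := l - 2) (by omega) (by omega)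
    rw [Nat.cast_sub (by omega), ← hdd] at hdk
    push_cast at hdk
    set kk : ℝ := ((K H a (l - 2)).card : ℝ) with hkk
    have hkl0 : 0 ≤ kl := by rw [hkl]; positivity
    set C : ℝ := ((l - 1).choose 2 : ℝ) with hCC
    set Y : ℝ := d - (l - 3) * (d - X H a 2) with hY
    have hYX : Y ≤ X H a (l - 2) := by rw [hY]; linarith
    have hYd : Y ≤ d := by
      rw [hY]
      have : 0 ≤ ((l : ℝ) - 3) * (d - X H a 2) := mul_nonneg (by linarith) (by linarith)
      linarith
    have hmain : Y - C * (l - 3) ≤ kl := by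
      by_cases hc : d ≤ kl
      · have : 0 ≤ C * ((l : ℝ) - 3) := mul_nonneg hC (by linarith)
        linarith
      · push Not at hc
        -- X κ ≤ kl κ + kl C, kl ≤ d ≤ (l-3) κ
        have h1 : X H a (l - 2) * kk ≤ kl * kk + C * (l - 3) * kk := by
          have h2 : kl * C ≤ C * (l - 3) * kk := by
            have h3 : kl ≤ (l - 3) * kk := by linarith
            have := mul_le_mul_of_nonneg_left h3 hC
            linarith
          linarith
        have h4 : X H a (l - 2) * kk ≤ (kl + C * (l - 3)) * kk := by linarith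
        have h5 := le_of_mul_le_mul_right h4 hk
        linarith
    have hfin : d - (l - 3) * Fintype.card V
        + (l - 3) * ((∑ b ∈ H.neighborFinset a, (H.degree b : ℝ)) / d) ≤ Y := by
      rw [hY]
      have h6 : ((l : ℝ) - 3) * (d - Fintype.card V
          + (∑ b ∈ H.neighborFinset a, (H.degree b : ℝ)) / d) ≤ (l - 3) * X H a 2 :=
        mul_le_mul_of_nonneg_left hX2ge (by linarith)
      linarith
    linarith

/-! ### Global inequalities -/

lemma sum_K (l : ℕ) : ∑ a : V, ((K H a l).card : ℝ) = l * ((H.cliqueFinset l).card : ℝ) := by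
  have h : ∑ a : V, (K H a l).card = ∑ T ∈ H.cliqueFinset l, T.card := by
    have h1 : ∀ a : V, (K H a l).card = ∑ T ∈ H.cliqueFinset l, if a ∈ T then 1 else 0 := by
      intro a
      rw [K, Finset.card_filter]
    simp only [h1]
    rw [Finset.sum_comm]
    refine Finset.sum_congr rfl fun T _ => ?_
    rw [← Finset.card_filter]
    congr 1
    ext a; simp
  have h2 : ∑ T ∈ H.cliqueFinset l, T.card = (H.cliqueFinset l).card * l := by
    rw [Finset.sum_const_nat]
    intro T hT
    exact (SimpleGraph.mem_cliqueFinset_iff.mp hT).card_eq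
  rw [h2] at h
  have h3 : ((∑ a : V, (K H a l).card : ℕ) : ℝ) = (((H.cliqueFinset l).card * l : ℕ) : ℝ) := by
    rw [h]
  push_cast at h3
  linarith

lemma sum_deg : ∑ a : V, (H.degree a : ℝ) = 2 * (H.edgeFinset.card : ℝ) := by
  have h := H.sum_degrees_eq_twice_card_edges
  have h2 : ((∑ a : V, H.degree a : ℕ) : ℝ) = ((2 * H.edgeFinset.card : ℕ) : ℝ) := by rw [h]
  push_cast at h2
  exact h2

/-- `∑_a ∑_{b ~ a} d(b)/d(a) ≥ 2e`. -/
lemma sum_ratio :
    2 * (H.edgeFinset.card : ℝ)
      ≤ ∑ a : V, (∑ b ∈ H.neighborFinset a, (H.degree b : ℝ)) / H.degree a := by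
  have h1 : ∑ a : V, (∑ b ∈ H.neighborFinset a, (H.degree b : ℝ)) / H.degree a
      = ∑ a : V, ∑ b : V, if H.Adj a b then (H.degree b : ℝ) / H.degree a else 0 := by
    refine Finset.sum_congr rfl fun a _ => ?_
    rw [Finset.sum_div, ← Finset.sum_filter]
    refine Finset.sum_congr ?_ fun b _ => rfl
    ext b; simp
  have h2 : ∑ a : V, ∑ b : V, (if H.Adj a b then (H.degree b : ℝ) / H.degree a else 0)
      = ∑ a : V, ∑ b : V, if H.Adj a b then (H.degree a : ℝ) / H.degree b else 0 := by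
    rw [Finset.sum_comm]
    refine Finset.sum_congr rfl fun a _ => Finset.sum_congr rfl fun b _ => ?_
    simp only [H.adj_comm]
  have h3 : ∑ a : V, ∑ b : V, (if H.Adj a b then (2 : ℝ) else 0)
      ≤ ∑ a : V, ∑ b : V, ((if H.Adj a b then (H.degree b : ℝ) / H.degree a else 0)
        + (if H.Adj a b then (H.degree a : ℝ) / H.degree b else 0)) := by
    refine Finset.sum_le_sum fun a _ => Finset.sum_le_sum fun b _ => ?_
    by_cases hab : H.Adj a b
    · rw [if_pos hab, if_pos hab, if_pos hab]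
      have ha : (0 : ℝ) < H.degree a := by
        exact_mod_cast (H.degree_pos_iff_exists_adj a).mpr ⟨b, hab⟩
      have hb : (0 : ℝ) < H.degree b := by
        exact_mod_cast (H.degree_pos_iff_exists_adj b).mpr ⟨a, hab.symm⟩
      rw [div_add_div _ _ ha.ne' hb.ne', le_div_iff₀ (by positivity)]
      nlinarith [sq_nonneg ((H.degree a : ℝ) - H.degree b)]
    · rw [if_neg hab, if_neg hab, if_neg hab]; norm_num
  have h4 : ∑ a : V, ∑ b : V, (if H.Adj a b then (2 : ℝ) else 0)
      = 2 * (2 * (H.edgeFinset.card : ℝ)) := by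
    rw [← sum_deg, Finset.mul_sum]
    refine Finset.sum_congr rfl fun a _ => ?_
    rw [← Finset.sum_filter, Finset.sum_const, nsmul_eq_mul,
      ← SimpleGraph.card_neighborFinset_eq_degree]
    have : univ.filter (fun b => H.Adj a b) = H.neighborFinset a := by ext b; simp
    rw [this]; ring
  simp only [Finset.sum_add_distrib] at h3
  rw [← h2, ← h1, h4] at h3
  linarith

/-- Every edge lies in an `l`-clique: local form of the hypothesis. -/
lemma local_hyp {l : ℕ} (hE : ∀ a c, H.Adj a c → ∃ T, H.IsNClique l T ∧ a ∈ T ∧ c ∈ T) (a : V) :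
    ∀ c, H.Adj a c → ∃ T ∈ K H a l, c ∈ T := by
  intro c hc
  obtain ⟨T, hT, ha, hcT⟩ := hE a c hc
  exact ⟨T, mem_K.mpr ⟨hT, ha⟩, hcT⟩

/-- If every edge lies in an `l`-clique, `l ≥ 4`, then
`l k_l ≥ 2 (l-2) e - (l-3) n² - C n`. -/
theorem cliques_ge {l : ℕ} (hl : 4 ≤ l)
    (hE : ∀ a c, H.Adj a c → ∃ T, H.IsNClique l T ∧ a ∈ T ∧ c ∈ T) :
    2 * ((l : ℝ) - 2) * H.edgeFinset.card - (l - 3) * (Fintype.card V : ℝ) ^ 2
        - ((l - 1).choose 2 : ℝ) * (l - 3) * Fintype.card V
      ≤ l * (H.cliqueFinset l).card := by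
  have hl' : (4 : ℝ) ≤ l := by exact_mod_cast hl
  have h1 : ∑ a : V, ((H.degree a : ℝ) - (l - 3) * Fintype.card V
        + (l - 3) * ((∑ b ∈ H.neighborFinset a, (H.degree b : ℝ)) / H.degree a)
        - ((l - 1).choose 2 : ℝ) * (l - 3)) ≤ ∑ a : V, ((K H a l).card : ℝ) :=
    Finset.sum_le_sum fun a _ => local_bound hl (local_hyp hE a)
  rw [sum_K, Finset.sum_sub_distrib, Finset.sum_add_distrib, Finset.sum_sub_distrib, sum_deg,
    Finset.sum_const, Finset.sum_const, ← Finset.mul_sum, Finset.card_univ, nsmul_eq_mul,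
    nsmul_eq_mul] at h1
  have h2 := sum_ratio (H := H)
  have h3 : ((l : ℝ) - 3) * (2 * (H.edgeFinset.card : ℝ))
      ≤ (l - 3) * ∑ a : V, (∑ b ∈ H.neighborFinset a, (H.degree b : ℝ)) / H.degree a :=
    mul_le_mul_of_nonneg_left h2 (by linarith)
  nlinarith

/-- The trivial bound `C(l,2) k_l ≥ e`. -/
theorem cliques_ge' {l : ℕ} (hl : 4 ≤ l)
    (hE : ∀ a c, H.Adj a c → ∃ T, H.IsNClique l T ∧ a ∈ T ∧ c ∈ T) :
    2 * (H.edgeFinset.card : ℝ) ≤ l * (l - 1) * (H.cliqueFinset l).card := by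
  have h1 : ∑ a : V, (H.degree a : ℝ) ≤ ∑ a : V, ((l : ℝ) - 1) * (K H a l).card :=
    Finset.sum_le_sum fun a _ => degree_le (local_hyp hE a) (by omega) le_rfl
  rw [sum_deg, ← Finset.mul_sum, sum_K] at h1
  linarith

/-- Edges minus `l`-cliques. -/
theorem edges_sub_cliques_le {l : ℕ} (hl : 4 ≤ l)
    (hE : ∀ a c, H.Adj a c → ∃ T, H.IsNClique l T ∧ a ∈ T ∧ c ∈ T) :
    2 * ((l : ℝ) * (l ^ 2 - 3 * l + 1)) * ((H.edgeFinset.card : ℝ) - (H.cliqueFinset l).card)
      ≤ (l - 2) * (l + 1) * ((l - 3) * (Fintype.card V : ℝ) ^ 2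
        + ((l - 1).choose 2 : ℝ) * (l - 3) * Fintype.card V) := by
  have hl' : (4 : ℝ) ≤ l := by exact_mod_cast hl
  have hA := cliques_ge hl hE
  have hB := cliques_ge' hl hE
  set E : ℝ := (H.edgeFinset.card : ℝ)
  set k : ℝ := ((H.cliqueFinset l).card : ℝ)
  set n : ℝ := (Fintype.card V : ℝ)
  set C : ℝ := ((l - 1).choose 2 : ℝ)
  have h1 : 0 ≤ ((l : ℝ) - 2) * (l + 1) := by nlinarith
  have h2 : ((l : ℝ) - 2) * (l + 1) * (2 * (l - 2) * E - l * k)
      ≤ (l - 2) * (l + 1) * ((l - 3) * n ^ 2 + C * (l - 3) * n) :=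
    mul_le_mul_of_nonneg_left (by linarith) h1
  have h3 : ((l : ℝ) - 4) * (2 * E - l * (l - 1) * k) ≤ 0 :=
    mul_nonpos_of_nonneg_of_nonpos (by linarith) (by linarith)
  have h4 : 2 * ((l : ℝ) * (l ^ 2 - 3 * l + 1)) * (E - k)
      = (l - 2) * (l + 1) * (2 * (l - 2) * E - l * k) + (l - 4) * (2 * E - l * (l - 1) * k) := by
    ring
  linarith

end Pool.Agent.Q111.CliqueCount
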