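import Mathlib

/-!
# The cookie game

A position is the list of its heap sizes, in non-decreasing order.
-/

namespace Q111.Cookie

/-- The position reached from `G` by selecting the component with index `k` (indices start at
`0`): this heap is removed, and every other heap of positive size is decreased by `1` (the
subtraction is that of natural numbers, so `0 - 1 = 0`). -/
def move (G : List ℕ) (k : ℕ) : List ℕ := (G.eraseIdx k).map fun a => a - 1

/-- `G` has type `N`: some component of positive size can be selected so that the position reached
does not have type `N`. (A position with no positive heap is not of type `N`: the player to move
loses.) -/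
def TypeN (G : List ℕ) : Prop :=
  ∃ (k : ℕ) (h : k < G.length), 1 ≤ G[k] ∧ ¬ TypeN (move G k)
termination_by G.length
decreasing_by
  simp only [move, List.length_map]
  rw [List.length_eraseIdx]
  split_ifs
  omega

/-- The component of `G` with index `k` is winning: it can be selected, and selecting it produces a
position which does not have type `N`. -/
def Winning (G : List ℕ) (k : ℕ) : Prop :=
  ∃ h : k < G.length, 1 ≤ G[k] ∧ ¬ TypeN (move G k)

/-- `G` is strict: all its components are positive, and they are pairwise distinct, except that
components equal to the number of components may occur more than once. -/
def Strict (G : List ℕ) : Prop :=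
  (∀ a ∈ G, 1 ≤ a) ∧
    ∀ (i j : ℕ) (hi : i < G.length) (hj : j < G.length), i ≠ j → G[i] = G[j] → G[i] = G.length

end Q111.Cookie
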