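import Pool.Agent.Q111.CookieGMain

namespace Q111.CookieG

open Q111.Cookie (Ok move length_move ok_of_pairwise)

theorem rP_pre : ∀ (len c p m : ℕ) (t : List ℕ), 2 * c + len + 1 ≤ p →
    rP false c m (List.range' p len ++ t) = rP false (c + len) m t
  | 0, c, p, m, t, _ => by simp
  | len + 1, c, p, m, t, h => by
    rw [List.range'_succ, List.cons_append, rP, if_neg (by omega)]
    rw [rP_pre len (c + 1) (p + 1) m t (by omega)]
    congr 1
    omega

theorem rP_bV : ∀ (j c m : ℕ) (t : List ℕ), 2 * c + 3 * j ≤ m →
    rP false c m (List.range' (2 * c + 1) (2 * j) ++ t) = rP false (c + j) (m - j) t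
  | 0, c, m, t, _ => by simp
  | j + 1, c, m, t, h => by
    rw [show 2 * (j + 1) = 2 * j + 1 + 1 by ring, List.range'_succ, List.range'_succ,
      List.cons_append, List.cons_append, rP, if_pos (by omega), rP, if_pos (by omega),
      show 2 * c + 1 + 1 + 1 = 2 * (c + 1) + 1 by ring, rP_bV j (c + 1) (m - 1) t (by omega)]
    congr 1 <;> omega

theorem rP_bW : ∀ (j c m : ℕ) (t : List ℕ), 2 * c + 3 * j + 1 < m →
    rP true c m (List.range' (2 * c + 2) (2 * j) ++ t) = rP true (c + j) (m - j) t
  | 0, c, m, t, _ => by simp
  | j + 1, c, m, t, h => by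
    rw [show 2 * (j + 1) = 2 * j + 1 + 1 by ring, List.range'_succ, List.range'_succ,
      List.cons_append, List.cons_append, rP, if_pos (by omega), rP, if_pos (by omega),
      show 2 * c + 2 + 1 + 1 = 2 * (c + 1) + 2 by ring, rP_bW j (c + 1) (m - 1) t (by omega)]
    congr 1 <;> omega

theorem split (s x y z : ℕ) (h : x + y = z) :
    List.range' s z = List.range' s x ++ List.range' (s + x) y := by
  rw [← h, ← List.range'_append_1]

theorem F1 (b t n : ℕ) (S : List ℕ) (hb : 1 ≤ b) (hbt : b ≤ t + 1) (hn : 3 * t + 1 ≤ n + b) :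
    rP false 0 n (List.range' b (2 * t + 1 - b) ++ S) = rP false t (n - (t + 1 - b)) S := by
  rw [split b (b - 1) (2 * (t + 1 - b)) (2 * t + 1 - b) (by omega), List.append_assoc,
    rP_pre (b - 1) 0 b n _ (by omega), show b + (b - 1) = 2 * (0 + (b - 1)) + 1 by omega,
    rP_bV (t + 1 - b) (0 + (b - 1)) n S (by omega)]
  congr 1
  omega

theorem F2 (b v t n : ℕ) (S : List ℕ) (hb : 1 ≤ b) (hbt : b ≤ t) (hbv : b + 1 ≤ v)
    (hv : v ≤ 2 * t) (hn : 3 * t ≤ n + b) :
    rP false 0 n (List.range' b (v - 1 - b) ++ (List.range' v (2 * t + 1 - v) ++ S)) =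
      rP false t (n - (t - b)) S := by
  by_cases h : v ≤ 2 * b
  · rw [rP_pre (v - 1 - b) 0 b n _ (by omega),
      split v (2 * b + 1 - v) (2 * (t - b)) (2 * t + 1 - v) (by omega), List.append_assoc,
      rP_pre (2 * b + 1 - v) (0 + (v - 1 - b)) v n _ (by omega),
      show v + (2 * b + 1 - v) = 2 * (0 + (v - 1 - b) + (2 * b + 1 - v)) + 1 by omega,
      rP_bV (t - b) _ n S (by omega)]
    congr 1
    omega
  · rcases Nat.even_or_odd' v with ⟨u, hu | hu⟩
    · subst hu
      rw [split b (b - 1) (2 * (u - b)) (2 * u - 1 - b) (by omega), List.append_assoc,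
        rP_pre (b - 1) 0 b n _ (by omega), show b + (b - 1) = 2 * (0 + (b - 1)) + 1 by omega,
        rP_bV (u - b) (0 + (b - 1)) n _ (by omega),
        show 2 * t + 1 - 2 * u = 2 * (t - u) + 1 by omega, List.range'_succ, List.cons_append,
        rP, if_neg (by omega), show 2 * u + 1 = 2 * (0 + (b - 1) + (u - b) + 1) + 1 by omega,
        rP_bV (t - u) _ _ S (by omega)]
      congr 1 <;> omega
    · subst hu
      rw [split b (b - 1) (2 * (u - b) + 1) (2 * u + 1 - 1 - b) (by omega), List.append_assoc,
        rP_pre (b - 1) 0 b n _ (by omega), show b + (b - 1) = 2 * (0 + (b - 1)) + 1 by omega,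
        split (2 * (0 + (b - 1)) + 1) (2 * (u - b)) 1 (2 * (u - b) + 1) rfl, List.append_assoc,
        rP_bV (u - b) (0 + (b - 1)) n _ (by omega), List.range'_one, List.singleton_append,
        rP, if_pos (by omega),
        show 2 * t + 1 - (2 * u + 1) = 2 * (t - u - 1) + 1 + 1 by omega, List.range'_succ,
        List.cons_append, rP, if_neg (by omega),
        split (2 * u + 1 + 1) (2 * (t - u - 1)) 1 (2 * (t - u - 1) + 1) rfl, List.append_assoc,
        show 2 * u + 1 + 1 = 2 * (0 + (b - 1) + (u - b) + 1) + 2 by omega,
        rP_bW (t - u - 1) _ _ _ (by omega), List.range'_one, List.singleton_append,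
        rP, if_pos (by omega)]
      congr 1 <;> omega

theorem ok3 (N s a u b w c : ℕ) (hs : 1 ≤ s) (hsu : s + a ≤ u) (huw : u + b ≤ w) :
    Ok N 1 (List.range' s a ++ (List.range' u b ++ List.range' w c)) := by
  have hpw : (List.range' s a ++ (List.range' u b ++ List.range' w c)).Pairwise (· < ·) := by
    rw [List.pairwise_append, List.pairwise_append]
    refine ⟨List.pairwise_lt_range', ⟨List.pairwise_lt_range', List.pairwise_lt_range', ?_⟩, ?_⟩
    · intro x hx y hy
      rw [List.mem_range'_1] at hx hy
      omega
    · intro x hx y hy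
      rw [List.mem_append, List.mem_range'_1, List.mem_range'_1] at hy
      rw [List.mem_range'_1] at hx
      omega
  apply ok_of_pairwise
  · refine hpw.imp ?_
    intro x y hxy
    exact ⟨hxy.le, fun h => by omega⟩
  · intro x hx
    rw [List.mem_append, List.mem_append, List.mem_range'_1, List.mem_range'_1,
      List.mem_range'_1] at hx
    omega

theorem small3 (s a u b w c : ℕ) (hs : 1 ≤ s) (hsu : s + a ≤ u) (huw : u + b ≤ w)
    (h : (rP false 0 (a + b + c) (List.range' s a ++ (List.range' u b ++ List.range' w c))).1 =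
      false) :
    gl (List.range' s a ++ (List.range' u b ++ List.range' w c)) < 2 := by
  have hlen : (List.range' s a ++ (List.range' u b ++ List.range' w c)).length = a + b + c := by
    simp only [List.length_append, List.length_range']
    omega
  have := (gl_of_rP _ _ hlen (ok3 _ s a u b w c hs hsu huw)).1 h
  omega

theorem range'_ge {w c m : ℕ} (h : m ≤ w) : ∀ x ∈ List.range' w c, m ≤ x := by
  intro x hx
  rw [List.mem_range'_1] at hx
  omega

theorem erase_range' (s len k : ℕ) (hk : k < len) :
    (List.range' s len).eraseIdx k = List.range' s k ++ List.range' (s + k + 1) (len - 1 - k) := by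
  rw [split s k (len - 1 - k + 1) len (by omega), List.range'_succ,
    List.eraseIdx_append_of_length_le (by simp)]
  simp

theorem map_range' (s len : ℕ) (hs : 1 ≤ s) :
    (List.range' s len).map (fun a => a - 1) = List.range' (s - 1) len := by
  rw [List.map_sub_range' (h := hs)]

/-- The positions of the chain. -/
def ch (t b M f : ℕ) : List ℕ := List.range' b (2 * t + 2 - b) ++ List.range' f (M - t - 1)

theorem length_ch (t b M f : ℕ) : (ch t b M f).length = (2 * t + 2 - b) + (M - t - 1) := by
  simp [ch]

theorem move_left (t b M f k : ℕ) (hb : 1 ≤ b) (hf : 1 ≤ f) (hk : k < 2 * t + 2 - b) :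
    move (ch t b M f) k = List.range' (b - 1) k ++ (List.range' (b + k) (2 * t + 1 - b - k) ++
      List.range' (f - 1) (M - t - 1)) := by
  unfold move ch
  rw [List.eraseIdx_append_of_lt_length (by simpa using hk), erase_range' _ _ _ hk,
    List.map_append, List.map_append, map_range' _ _ hb, map_range' _ _ (by omega),
    map_range' _ _ hf, List.append_assoc]
  congr 3
  omega

theorem move_right (t b M f k : ℕ) (hb : 1 ≤ b) (hf : 1 ≤ f) (hk : 2 * t + 2 - b ≤ k)
    (hk' : k < (2 * t + 2 - b) + (M - t - 1)) :
    move (ch t b M f) k = List.range' (b - 1) (2 * t + 2 - b) ++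
      (List.range' (f - 1) (k - (2 * t + 2 - b)) ++
        List.range' (f + (k - (2 * t + 2 - b))) (M - t - 2 - (k - (2 * t + 2 - b)))) := by
  unfold move ch
  rw [List.eraseIdx_append_of_length_le (by simpa using hk), List.length_range',
    erase_range' _ _ _ (by omega),
    List.map_append, List.map_append, map_range' _ _ hb, map_range' _ _ hf,
    map_range' _ _ (by omega)]
  rfl

theorem opt_small (t b M f k : ℕ) (hb : 1 ≤ b) (hbt : b ≤ t + 1) (hM : 2 * t + 2 ≤ M)
    (hf : M ≤ f) (hk : k < (2 * t + 2 - b) + (M - t - 1)) (hk' : k ≠ 2 * t + 1 - b) :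
    gl (move (ch t b M f) k) < 2 := by
  rcases lt_or_ge k (2 * t + 2 - b) with h | h
  · rw [move_left t b M f k hb (by omega) h]
    rcases Nat.lt_or_ge b 2 with hb2 | hb2
    · have hb1 : b = 1 := by omega
      subst hb1
      cases k with
      | zero =>
        simp only [List.range'_zero, List.nil_append]
        have e : List.range' (1 + 0) (2 * t + 1 - 1 - 0) ++ List.range' (f - 1) (M - t - 1) =
            List.range' 1 (2 * t + 1 - 1) ++ (List.range' (f - 1) 0 ++
              List.range' (f - 1) (M - t - 1)) := by simp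
        rw [e]
        apply small3 _ _ _ _ _ _ le_rfl (by omega) (by omega)
        rw [F1 1 t _ _ le_rfl (by omega) (by omega)]
        rw [rP_const]
        intro x hx
        rw [List.mem_append, List.mem_range'_1, List.mem_range'_1] at hx
        omega
      | succ k =>
        rw [show (1 : ℕ) - 1 = 0 from rfl, List.range'_succ, List.cons_append,
          gl_zero_cons _ _ rfl]
        have e : List.range' (0 + 1) k ++ (List.range' (1 + (k + 1)) (2 * t + 1 - 1 - (k + 1)) ++
            List.range' (f - 1) (M - t - 1)) =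
            List.range' 1 ((k + 2) - 1 - 1) ++ (List.range' (k + 2) (2 * t + 1 - (k + 2)) ++
              List.range' (f - 1) (M - t - 1)) := by
          congr 2 <;> congr 1 <;> omega
        rw [e]
        apply small3 _ _ _ _ _ _ le_rfl (by omega) (by omega)
        rw [F2 1 (k + 2) t _ _ le_rfl (by omega) (by omega) (by omega) (by omega)]
        rw [rP_const]
        apply range'_ge
        omega
    · have e : List.range' (b - 1) k ++ (List.range' (b + k) (2 * t + 1 - b - k) ++
          List.range' (f - 1) (M - t - 1)) =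
          List.range' (b - 1) ((b + k) - 1 - (b - 1)) ++
            (List.range' (b + k) (2 * t + 1 - (b + k)) ++ List.range' (f - 1) (M - t - 1)) := by
        congr 2 <;> congr 1 <;> omega
      rw [e]
      apply small3 _ _ _ _ _ _ (by omega) (by omega) (by omega)
      rw [F2 (b - 1) (b + k) t _ _ (by omega) (by omega) (by omega) (by omega) (by omega)]
      rw [rP_const]
      apply range'_ge
      omega
  · rw [move_right t b M f k hb (by omega) h hk]
    rcases Nat.lt_or_ge b 2 with hb2 | hb2
    · have hb1 : b = 1 := by omega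
      subst hb1
      rw [show (1 : ℕ) - 1 = 0 from rfl, show 2 * t + 2 - 1 = (2 * t + 1 - 1) + 1 by omega,
        List.range'_succ, List.cons_append, gl_zero_cons _ _ rfl, Nat.zero_add]
      apply small3 _ _ _ _ _ _ le_rfl (by omega) (by omega)
      rw [F1 1 t _ _ le_rfl (by omega) (by omega)]
      rw [rP_const]
      intro x hx
      rw [List.mem_append, List.mem_range'_1, List.mem_range'_1] at hx
      omega
    · have e : List.range' (b - 1) (2 * t + 2 - b) =
          List.range' (b - 1) (2 * t + 1 - (b - 1)) := by congr 1; omega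
      rw [e]
      apply small3 _ _ _ _ _ _ (by omega) (by omega) (by omega)
      rw [F1 (b - 1) t _ _ (by omega) (by omega) (by omega)]
      rw [rP_const]
      intro x hx
      rw [List.mem_append, List.mem_range'_1, List.mem_range'_1] at hx
      omega

theorem ch_ok (N t b M f : ℕ) (hb : 1 ≤ b) (hbt : b ≤ t + 1) (hM : 2 * t + 2 ≤ M)
    (hf : M ≤ f) : Ok N 1 (ch t b M f) := by
  have := ok3 N b (2 * t + 2 - b) (2 * t + 2) 0 f (M - t - 1) hb (by omega) (by omega)
  simpa [ch] using this

theorem ch_ge (t b M f : ℕ) (hb : 1 ≤ b) (hbt : b ≤ t + 1) (hM : 2 * t + 2 ≤ M)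
    (hf : M ≤ f) : 2 ≤ gl (ch t b M f) := by
  apply (gl_of_rP _ _ (length_ch t b M f) (ch_ok _ t b M f hb hbt hM hf)).2
  have e : ch t b M f = List.range' b (2 * t + 1 - b) ++
      ((2 * t + 1) :: List.range' f (M - t - 1)) := by
    unfold ch
    rw [split b (2 * t + 1 - b) 1 (2 * t + 2 - b) (by omega), List.append_assoc]
    congr 1
    rw [List.range'_one, List.singleton_append]
    congr 1
    omega
  rw [e, F1 b t _ _ hb hbt (by omega), rP, if_pos (by omega), rP_const (range'_ge (by omega))]

theorem chain (t : ℕ) : ∀ b M f : ℕ, 1 ≤ b → b ≤ t + 1 → 2 * t + 2 ≤ M → M ≤ f →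
    gl (ch t b M f) = if t % 2 = 0 then 2 else 3 := by
  induction t with
  | zero =>
    intro b M f hb hbt hM hf
    have hb1 : b = 1 := by omega
    subst hb1
    have hge := ch_ge 0 1 M f hb hbt hM hf
    have hle : gl (ch 0 1 M f) ≤ 2 := by
      apply gl_le
      intro k hk _
      rw [length_ch] at hk
      by_cases hk' : k = 2 * 0 + 1 - 1
      · have hk0 : k = 0 := by omega
        subst hk0
        rw [move_left 0 1 M f 0 hb (by omega) (by omega)]
        have e : List.range' (1 - 1) 0 ++ (List.range' (1 + 0) (2 * 0 + 1 - 1 - 0) ++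
            List.range' (f - 1) (M - 0 - 1)) =
            List.range' 1 (2 * 0 + 1 - 1) ++ (List.range' 1 0 ++
              List.range' (f - 1) (M - 0 - 1)) := by simp
        rw [e]
        have := small3 1 (2 * 0 + 1 - 1) 1 0 (f - 1) (M - 0 - 1) le_rfl (by omega) (by omega) (by
          rw [F1 1 0 _ _ le_rfl (by omega) (by omega)]
          rw [rP_const]
          intro x hx
          rw [List.mem_append, List.mem_range'_1, List.mem_range'_1] at hx
          omega)
        omega
      · have := opt_small 0 1 M f k hb hbt hM hf hk hk'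
        omega
    simp only [Nat.zero_mod, if_true]
    omega
  | succ t ih =>
    intro b M f hb hbt hM hf
    have hge := ch_ge (t + 1) b M f hb hbt hM hf
    have hsm := fun k hk hk' => opt_small (t + 1) b M f k hb hbt hM hf hk hk'
    have hK : gl (move (ch (t + 1) b M f) (2 * (t + 1) + 1 - b)) =
        if t % 2 = 0 then 2 else 3 := by
      rw [move_left (t + 1) b M f _ hb (by omega) (by omega)]
      rw [show 2 * (t + 1) + 1 - b - (2 * (t + 1) + 1 - b) = 0 by omega, List.range'_zero,
        List.nil_append]
      rcases Nat.lt_or_ge b 2 with hb2 | hb2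
      · have hb1 : b = 1 := by omega
        subst hb1
        rw [show (1 : ℕ) - 1 = 0 from rfl, show 2 * (t + 1) + 1 - 1 = (2 * t + 2 - 1) + 1 by omega,
          List.range'_succ, List.cons_append, gl_zero_cons _ _ rfl, Nat.zero_add]
        rw [← ih 1 (M - 1) (f - 1) le_rfl (by omega) (by omega) (by omega)]
        unfold ch
        congr 3
        omega
      · rw [← ih (b - 1) (M - 1) (f - 1) (by omega) (by omega) (by omega) (by omega)]
        unfold ch
        congr 2 <;> congr 1 <;> omega
    have hKlt : 2 * (t + 1) + 1 - b < (ch (t + 1) b M f).length := by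
      rw [length_ch]
      omega
    have hpos : ∀ (k : ℕ) (hk : k < (ch (t + 1) b M f).length), 1 ≤ (ch (t + 1) b M f)[k] :=
      fun k hk => (ch_ok 0 (t + 1) b M f hb hbt hM hf).ge _ (List.getElem_mem hk)
    have hneK := gl_ne _ _ hKlt (hpos _ hKlt)
    rw [hK] at hneK
    rcases Nat.mod_two_eq_zero_or_one t with ht | ht
    · rw [if_pos ht] at hK hneK
      rw [if_neg (by omega)]
      have hle : gl (ch (t + 1) b M f) ≤ 3 := by
        apply gl_le
        intro k hk _
        rw [length_ch] at hk
        by_cases hk' : k = 2 * (t + 1) + 1 - b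
        · rw [hk', hK]
          omega
        · have := hsm k hk hk'
          omega
      omega
    · rw [if_neg (by omega)] at hK hneK
      rw [if_pos (by omega)]
      have hle : gl (ch (t + 1) b M f) ≤ 2 := by
        apply gl_le
        intro k hk _
        rw [length_ch] at hk
        by_cases hk' : k = 2 * (t + 1) + 1 - b
        · rw [hk', hK]
          omega
        · have := hsm k hk hk'
          omega
      omega

theorem ap_eq (a n : ℕ) : ap a n = ((List.range' a n : List ℕ) : Multiset ℕ) := by
  unfold ap
  rw [Multiset.range, Multiset.map_coe, List.range'_eq_map_range]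

theorem main (a n : ℕ) (ha : 1 ≤ a) (hn : 2 * a ≤ n + 2) : grundy (ap a n) = g (a + n) := by
  rw [ap_eq]
  change gl (List.range' a n) = g (a + n)
  obtain ⟨t, ht | ht | ht⟩ : ∃ t, a + n = 3 * t + 1 ∨ a + n = 3 * t + 2 ∨ a + n = 3 * t + 3 := by
    refine ⟨(a + n - 1) / 3, ?_⟩
    omega
  · have hok : Ok n 1 (List.range' a n) := by
      have := ok3 n a n (a + n) 0 (a + n) 0 ha le_rfl le_rfl
      simpa using this
    have h := (gl_of_rP n _ (by simp) hok).1
    have e : rP false 0 n (List.range' a n) = (false, 2 * t) := by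
      rw [split a (2 * t + 1 - a) (n - (2 * t + 1 - a)) n (by omega),
        F1 a t n _ ha (by omega) (by omega), rP_const (range'_ge (by omega))]
      congr 1
      omega
    rw [e] at h
    rw [h rfl]
    unfold g
    simp only
    rw [if_pos (by omega)]
    omega
  · have hok : Ok n 1 (List.range' a n) := by
      have := ok3 n a n (a + n) 0 (a + n) 0 ha le_rfl le_rfl
      simpa using this
    have h := (gl_of_rP n _ (by simp) hok).1
    have e : rP false 0 n (List.range' a n) = (false, 2 * t + 1) := by
      rw [split a (2 * t + 1 - a) (n - (2 * t + 1 - a)) n (by omega),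
        F1 a t n _ ha (by omega) (by omega), rP_const (range'_ge (by omega))]
      congr 1
      omega
    rw [e] at h
    rw [h rfl]
    unfold g
    simp only
    rw [if_neg (by omega), if_pos (by omega)]
    omega
  · have e : List.range' a n = ch t a (2 * t + 2) (2 * t + 2) := by
      unfold ch
      rw [split a (2 * t + 2 - a) (2 * t + 2 - t - 1) n (by omega)]
      congr 2
      omega
    rw [e, chain t a (2 * t + 2) (2 * t + 2) ha (by omega) le_rfl le_rfl]
    unfold g
    rcases Nat.mod_two_eq_zero_or_one t with h | h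
    · rw [if_pos h, if_neg (by omega), if_neg (by omega), if_pos (by omega)]
    · rw [if_neg (by omega), if_neg (by omega), if_neg (by omega), if_neg (by omega)]

end Q111.CookieG
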