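import Mathlib

/-!
# The cookie game on multisets of heaps: Grundy values
-/

namespace Q111.CookieG

/-- The position reached from `X` by choosing a heap of size `x`: the heap is removed, and every
other heap of positive size is lowered by `1` (the subtraction is that of natural numbers, so a heap
of size `0` stays at `0`). -/
def select (X : Multiset ℕ) (x : ℕ) : Multiset ℕ := (X.erase x).map fun a => a - 1

/-- The Grundy value of a position: the least natural number which is not the Grundy value of a
position reached from `X` by choosing a heap of positive size. -/
noncomputable def grundy (X : Multiset ℕ) : ℕ :=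
  sInf {v : ℕ | ∀ x, ∀ _ : x ∈ X, 1 ≤ x → grundy (select X x) ≠ v}
termination_by Multiset.card X
decreasing_by
  rename_i h _
  rw [select, Multiset.card_map]
  exact Multiset.card_erase_lt_of_mem h

/-- The AP-position with the `n` heaps `a, a + 1, ..., a + n - 1`. -/
def ap (a n : ℕ) : Multiset ℕ := (Multiset.range n).map fun i => a + i

/-- The function `g`, by residue modulo `6`. -/
def g (m : ℕ) : ℕ :=
  if m % 6 = 1 ∨ m % 6 = 4 then 0
  else if m % 6 = 2 ∨ m % 6 = 5 then 1
  else if m % 6 = 3 then 2
  else 3

end Q111.CookieG
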