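import Pool.Agent.Q111.CookieMain

/-!
# The scans with a parity parameter

The scans `runA`, `runB` of `Q111.Cookie` with the parity of `m` shifted by `d`.
-/

namespace Q111.CookieG

open Q111.Cookie (Ok Ok.mono Ok.monoN Ok.ge Ok.tail Ok.all_ge forall_mem_eraseIdx)

def rA (d : ℕ) : ℕ → ℕ → List ℕ → ℕ
  | _, m, [] => m
  | c, m, p :: l =>
    if p < m ∧ p + (m + d) % 2 < 2 * c + 2 then rA d c (m - 1) l else rA d (c + 1) m l

def rB (d : ℕ) : ℕ → ℕ → List ℕ → ℕ
  | _, m, [] => m
  | c, m, p :: l =>
    if p < m ∧ p < 2 * c + 2 + (m + d) % 2 then rB d c (m - 1) l else rB d (c + 1) m l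

variable {d : ℕ}

theorem rA_acc {c m p : ℕ} {l : List ℕ} (h : ¬ (p < m ∧ p + (m + d) % 2 < 2 * c + 2)) :
    rA d c m (p :: l) = rA d (c + 1) m l := by
  rw [rA, if_neg h]

theorem rA_rej {c m p : ℕ} {l : List ℕ} (h : p < m ∧ p + (m + d) % 2 < 2 * c + 2) :
    rA d c m (p :: l) = rA d c (m - 1) l := by
  rw [rA, if_pos h]

theorem rB_acc {c m p : ℕ} {l : List ℕ} (h : ¬ (p < m ∧ p < 2 * c + 2 + (m + d) % 2)) :
    rB d c m (p :: l) = rB d (c + 1) m l := by
  rw [rB, if_neg h]

theorem rB_rej {c m p : ℕ} {l : List ℕ} (h : p < m ∧ p < 2 * c + 2 + (m + d) % 2) :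
    rB d c m (p :: l) = rB d c (m - 1) l := by
  rw [rB, if_pos h]

theorem rA_const {m : ℕ} : ∀ {l : List ℕ} {c : ℕ}, (∀ x ∈ l, m ≤ x) → rA d c m l = m
  | [], _, _ => rfl
  | p :: l, c, h => by
    have hp : m ≤ p := h p (by simp)
    rw [rA_acc (by omega)]
    exact rA_const (fun x hx => h x (by simp [hx]))

theorem rB_const {m : ℕ} : ∀ {l : List ℕ} {c : ℕ}, (∀ x ∈ l, m ≤ x) → rB d c m l = m
  | [], _, _ => rfl
  | p :: l, c, h => by
    have hp : m ≤ p := h p (by simp)
    rw [rB_acc (by omega)]
    exact rB_const (fun x hx => h x (by simp [hx]))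

theorem rA_le : ∀ {l : List ℕ} {c m : ℕ}, rA d c m l ≤ m
  | [], _, _ => le_rfl
  | p :: l, c, m => by
    rw [rA]
    split_ifs
    · exact rA_le.trans (by omega)
    · exact rA_le

theorem stu (N : ℕ) (l : List ℕ) :
    (∀ c m lo, m ≤ N → Ok N lo l → 2 * c + 3 ≤ lo + (m + d) % 2 →
      (rA d (c + 1) m l = m → rB d c m l = m) ∧
      ((rA d (c + 1) m l + d) % 2 = 0 → (rB d c m l + d) % 2 = 0)) ∧
    (∀ c m lo, m + 1 ≤ N → Ok N lo l → (m + d) % 2 = 1 → 2 * c + 1 ≤ lo →
      (rA d c m l + d) % 2 = 0 → (rB d c (m + 1) l + d) % 2 = 0) ∧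
    (∀ c m lo, m ≤ N → Ok N lo l → (m + d) % 2 = 1 → 2 * c + 4 ≤ lo →
      (rA d (c + 2) m l + d) % 2 = 0 → (rB d c (m - 1) l + d) % 2 = 0) := by
  induction l with
  | nil =>
    refine ⟨?_, ?_, ?_⟩
    · intro c m lo _ _ _
      exact ⟨fun _ => rfl, fun h => h⟩
    · intro c m lo _ _ hm _ h
      simp only [rA] at h
      omega
    · intro c m lo _ _ hm _ h
      simp only [rA] at h
      omega
  | cons p l ih =>
    obtain ⟨ihS, ihT, ihU⟩ := ih
    refine ⟨?_, ?_, ?_⟩
    · -- S
      intro c m lo hmN hok hinv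
      have hp := hok.1
      by_cases hpm : m ≤ p
      · have hall := hok.all_ge hpm
        rw [rA_const hall, rB_const hall]
        exact ⟨fun _ => rfl, fun h => h⟩
      · have hpm' : p < m := by omega
        have hokt := hok.tail (by omega)
        rcases Nat.mod_two_eq_zero_or_one (m + d) with hm | hm
        · by_cases hacc : 2 * c + 4 ≤ p
          · rw [rA_acc (by omega), rB_acc (by omega)]
            exact ihS (c + 1) m (p + 1) hmN hokt (by omega)
          · have hpe : p = 2 * c + 3 := by omega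
            rw [rA_rej (by omega), rB_acc (by omega)]
            have hle : rA d (c + 1) (m - 1) l ≤ m - 1 := rA_le
            refine ⟨fun h => by omega, fun h => ?_⟩
            have := ihT (c + 1) (m - 1) (p + 1) (by omega) hokt (by omega) (by omega) h
            rwa [show m - 1 + 1 = m by omega] at this
        · by_cases hacc : 2 * c + 3 ≤ p
          · rw [rA_acc (by omega), rB_acc (by omega)]
            exact ihS (c + 1) m (p + 1) hmN hokt (by omega)
          · have hpe : p = 2 * c + 2 := by omega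
            rw [rA_rej (by omega), rB_rej (by omega)]
            have hle : rA d (c + 1) (m - 1) l ≤ m - 1 := rA_le
            have hS := ihS c (m - 1) (p + 1) (by omega) hokt (by omega)
            exact ⟨fun h => by omega, hS.2⟩
    · -- T
      intro c m lo hmN hok hm hinv h
      have hp := hok.1
      have hpm' : p < m := by
        by_contra hcon
        rw [rA_const (hok.all_ge (by omega))] at h
        omega
      have hokt := hok.tail (by omega)
      rw [rA_acc (by omega)] at h
      by_cases hpe : p = 2 * c + 1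
      · rw [rB_rej (by omega)]
        exact (ihS c m (p + 1) (by omega) hokt (by omega)).2 h
      · rw [rB_acc (by omega)]
        exact ihT (c + 1) m (p + 1) hmN hokt hm (by omega) h
    · -- U
      intro c m lo hmN hok hm hinv h
      have hp := hok.1
      have hpm' : p < m := by
        by_contra hcon
        rw [rA_const (hok.all_ge (by omega))] at h
        omega
      have hokt := hok.tail (by omega)
      rw [rB_acc (by omega)]
      by_cases hacc : 2 * c + 5 ≤ p
      · rw [rA_acc (by omega)] at h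
        exact ihU (c + 1) m (p + 1) hmN hokt hm (by omega) h
      · have hpe : p = 2 * c + 4 := by omega
        rw [rA_rej (by omega)] at h
        exact (ihS (c + 1) (m - 1) (p + 1) (by omega) hokt (by omega)).2 h

theorem even_cons {p c m c' m' : ℕ} {l : List ℕ}
    (hk : ∀ l', rB d c m (p :: l') = rB d c' m' l') (h0 : (rB d c m l + d) % 2 = 0)
    (h : ∀ k, (rB d c' m' (l.eraseIdx k) + d) % 2 = 0) (k : ℕ) :
    (rB d c m ((p :: l).eraseIdx k) + d) % 2 = 0 := by
  cases k with
  | zero => simpa using h0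
  | succ k => rw [List.eraseIdx_cons_succ, hk, h k]

theorem odd_cons {p c m c' m' : ℕ} {l : List ℕ}
    (hk : ∀ l', rB d c m (p :: l') = rB d c' m' l')
    (h : ∃ k ≤ l.length, (rB d c' m' (l.eraseIdx k) + d) % 2 = 1) :
    ∃ k ≤ (p :: l).length, (rB d c m ((p :: l).eraseIdx k) + d) % 2 = 1 := by
  obtain ⟨k, hkl, h⟩ := h
  refine ⟨k + 1, by simpa using hkl, ?_⟩
  rw [List.eraseIdx_cons_succ, hk, h]

theorem rr (N : ℕ) (l : List ℕ) :
    (∀ c m lo, m ≤ N → Ok N lo l → 2 * c + 1 ≤ lo →
      ((rA d c m l + d) % 2 = 0 → ∀ k, (rB d c m (l.eraseIdx k) + d) % 2 = 0) ∧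
      ((rA d c m l + d) % 2 = 1 → ∃ k ≤ l.length, (rB d c m (l.eraseIdx k) + d) % 2 = 1)) ∧
    (∀ c m lo, m ≤ N → Ok N lo l → (m + d) % 2 = 1 → 2 * c + 2 ≤ lo →
      ((rA d (c + 1) m l + d) % 2 = 0 → ∀ k, (rB d c (m - 1) (l.eraseIdx k) + d) % 2 = 0) ∧
      (rA d (c + 1) m l ≠ m → (rA d (c + 1) m l + d) % 2 = 1 →
        ∃ k ≤ l.length, (rB d c (m - 1) (l.eraseIdx k) + d) % 2 = 1)) := by
  induction l with
  | nil =>
    refine ⟨?_, ?_⟩
    · intro c m lo _ _ _
      refine ⟨fun h k => by simpa [rA, rB] using h, fun h => ⟨0, le_rfl, ?_⟩⟩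
      simpa [rA, rB] using h
    · intro c m lo _ _ hm _
      refine ⟨fun h k => ?_, fun h => absurd rfl h⟩
      simp only [rA] at h
      omega
  | cons p l ih =>
    obtain ⟨ihR, ihQ⟩ := ih
    obtain ⟨hS, hT, hU⟩ := stu (d := d) N l
    refine ⟨?_, ?_⟩
    · -- R
      intro c m lo hmN hok hinv
      have hp := hok.1
      by_cases hpm : m ≤ p
      · have hall := hok.all_ge hpm
        rw [rA_const hall]
        refine ⟨fun h k => ?_, fun h => ⟨0, Nat.zero_le _, ?_⟩⟩
        · rw [rB_const (forall_mem_eraseIdx hall)]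
          exact h
        · rw [rB_const (forall_mem_eraseIdx hall)]
          exact h
      · have hpm' : p < m := by omega
        have hokt := hok.tail (by omega)
        rcases Nat.mod_two_eq_zero_or_one (m + d) with hm | hm
        · by_cases hacc : 2 * c + 2 ≤ p
          · -- both accept
            rw [rA_acc (by omega)]
            have hB : ∀ l', rB d c m (p :: l') = rB d (c + 1) m l' :=
              fun l' => rB_acc (by omega)
            have hIH := ihR (c + 1) m (p + 1) hmN hokt (by omega)
            have hs := hS c m (p + 1) hmN hokt (by omega)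
            exact ⟨fun h => even_cons hB (hs.2 h) (hIH.1 h), fun h => odd_cons hB (hIH.2 h)⟩
          · -- both reject
            rw [rA_rej (by omega)]
            have hB : ∀ l', rB d c m (p :: l') = rB d c (m - 1) l' :=
              fun l' => rB_rej (by omega)
            have hIH := ihR c (m - 1) (p + 1) (by omega) hokt (by omega)
            have ht := hT c (m - 1) (p + 1) (by omega) hokt (by omega) (by omega)
            rw [show m - 1 + 1 = m by omega] at ht
            exact ⟨fun h => even_cons hB (ht h) (hIH.1 h), fun h => odd_cons hB (hIH.2 h)⟩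
        · -- the first scan accepts
          rw [rA_acc (by omega)]
          have hs := hS c m (p + 1) hmN hokt (by omega)
          by_cases hacc : 2 * c + 3 ≤ p
          · have hB : ∀ l', rB d c m (p :: l') = rB d (c + 1) m l' :=
              fun l' => rB_acc (by omega)
            have hIH := ihR (c + 1) m (p + 1) hmN hokt (by omega)
            exact ⟨fun h => even_cons hB (hs.2 h) (hIH.1 h), fun h => odd_cons hB (hIH.2 h)⟩
          · have hB : ∀ l', rB d c m (p :: l') = rB d c (m - 1) l' :=
              fun l' => rB_rej (by omega)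
            have hIH := ihQ c m (p + 1) hmN hokt hm (by omega)
            refine ⟨fun h => even_cons hB (hs.2 h) (hIH.1 h), fun h => ?_⟩
            by_cases h1 : rA d (c + 1) m l = m
            · refine ⟨0, Nat.zero_le _, ?_⟩
              rw [List.eraseIdx_cons_zero, hs.1 h1]
              exact hm
            · exact odd_cons hB (hIH.2 h1 h)
    · -- Q
      intro c m lo hmN hok hm hinv
      have hp := hok.1
      by_cases hpm : m ≤ p
      · have hall := hok.all_ge hpm
        rw [rA_const hall]
        exact ⟨fun h => by omega, fun h => absurd rfl h⟩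
      · have hpm' : p < m := by omega
        have hokt := hok.tail (by omega)
        have hB : ∀ l', rB d c (m - 1) (p :: l') = rB d (c + 1) (m - 1) l' :=
          fun l' => rB_acc (by omega)
        by_cases hacc : 2 * c + 3 ≤ p
        · rw [rA_acc (by omega)]
          have hu := hU c m (p + 1) hmN hokt hm (by omega)
          have hIH := ihQ (c + 1) m (p + 1) hmN hokt hm (by omega)
          exact ⟨fun h => even_cons hB (hu h) (hIH.1 h), fun h1 h => odd_cons hB (hIH.2 h1 h)⟩
        · rw [rA_rej (by omega)]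
          have hs := hS c (m - 1) (p + 1) (by omega) hokt (by omega)
          have hIH := ihR (c + 1) (m - 1) (p + 1) (by omega) hokt (by omega)
          exact ⟨fun h => even_cons hB (hs.2 h) (hIH.1 h), fun _ h => odd_cons hB (hIH.2 h)⟩

theorem shift : ∀ (l : List ℕ) (c m : ℕ), 1 ≤ m → (∀ x ∈ l, 1 ≤ x) →
    rB d c m l = rA d c (m - 1) (l.map fun a => a - 1) + 1
  | [], c, m, hm, _ => by simp only [rB, List.map_nil, rA]; omega
  | p :: l, c, m, hm, h => by
    have hp : 1 ≤ p := h p (by simp)
    rw [List.map_cons]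
    by_cases hc : p < m ∧ p < 2 * c + 2 + (m + d) % 2
    · rw [rB_rej hc, rA_rej (by omega), shift l c (m - 1) (by omega) fun x hx => h x (by simp [hx])]
    · rw [rB_acc hc, rA_acc (by omega), shift l (c + 1) m hm fun x hx => h x (by simp [hx])]

theorem rB_append : ∀ (l : List ℕ) (c m x : ℕ), m ≤ x → rB d c m (l ++ [x]) = rB d c m l
  | [], c, m, x, h => by
    rw [List.nil_append, rB_acc (by omega)]
    rfl
  | p :: l, c, m, x, h => by
    rw [List.cons_append]
    by_cases hc : p < m ∧ p < 2 * c + 2 + (m + d) % 2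
    · rw [rB_rej hc, rB_rej hc]
      exact rB_append l c (m - 1) x (by omega)
    · rw [rB_acc hc, rB_acc hc]
      exact rB_append l (c + 1) m x h

theorem last_erase (n : ℕ) (G : List ℕ) (hlen : G.length = n) (hok : Ok n 1 G) (hn : 1 ≤ n) :
    rB d 0 n (G.eraseIdx (n - 1)) = rB d 0 n (G.eraseIdx n) := by
  obtain ⟨l, x, rfl⟩ : ∃ l x, G = l ++ [x] := by
    refine ⟨G.dropLast, G.getLast (by rintro rfl; simp at hlen; omega), ?_⟩
    rw [List.dropLast_append_getLast]
  have hll : l.length = n - 1 := by
    rw [List.length_append, List.length_singleton] at hlen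
    omega
  have hx : n ≤ x := by
    have := Q111.Cookie.ok_last l 1 x hok
    omega
  have e1 : (l ++ [x]).eraseIdx (n - 1) = l := by
    rw [← hll, List.eraseIdx_append_of_length_le le_rfl]
    simp
  have e2 : (l ++ [x]).eraseIdx n = l ++ [x] := by
    apply List.eraseIdx_of_length_le
    omega
  rw [e1, e2, rB_append l 0 n x hx]

/-- The two halves of the comparison, for a full position. -/
theorem all_even (n : ℕ) (G : List ℕ) (hok : Ok n 1 G) (h : (rA d 0 n G + d) % 2 = 0) (k : ℕ) :
    (rB d 0 n (G.eraseIdx k) + d) % 2 = 0 :=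
  ((rr n G).1 0 n 1 le_rfl hok (by omega)).1 h k

theorem exists_odd (n : ℕ) (G : List ℕ) (hlen : G.length = n) (hok : Ok n 1 G) (hn : 1 ≤ n)
    (h : (rA d 0 n G + d) % 2 = 1) : ∃ k < n, (rB d 0 n (G.eraseIdx k) + d) % 2 = 1 := by
  obtain ⟨k, hk, h⟩ := ((rr n G).1 0 n 1 le_rfl hok (by omega)).2 h
  rw [hlen] at hk
  rcases hk.lt_or_eq with hk | hk
  · exact ⟨k, hk, h⟩
  · subst hk
    exact ⟨k - 1, by omega, by rwa [last_erase k G hlen hok hn]⟩

end Q111.CookieG
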