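import Pool.Agent.Q111.CookieGDefs
import Pool.Agent.Q111.CookieGRun

namespace Q111.CookieG

open Q111.Cookie (Ok move length_move ok_eraseIdx ok_map ok_of_pairwise)

/-! ### Grundy values of lists -/

/-- The Grundy value of the multiset of the entries of a list. -/
noncomputable def gl (l : List ℕ) : ℕ := grundy (l : Multiset ℕ)

theorem select_coe (l : List ℕ) (k : ℕ) (hk : k < l.length) :
    select (l : Multiset ℕ) l[k] = ((move l k : List ℕ) : Multiset ℕ) := by
  have h : (l : Multiset ℕ) = l[k] ::ₘ ((l.eraseIdx k : List ℕ) : Multiset ℕ) := by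
    rw [Multiset.cons_coe]
    exact (Multiset.coe_eq_coe.2 (List.getElem_cons_eraseIdx_perm hk)).symm
  unfold select move
  rw [← Multiset.map_coe]
  congr 1
  conv_lhs => rw [h]
  rw [Multiset.erase_cons_head]

theorem gl_eq (l : List ℕ) :
    gl l = sInf {v : ℕ | ∀ (k : ℕ) (h : k < l.length), 1 ≤ l[k] → gl (move l k) ≠ v} := by
  unfold gl
  rw [grundy]
  congr 1
  ext v
  simp only [Set.mem_ofPred_eq]
  constructor
  · intro h k hk hpos
    have := h l[k] (by simp) hpos
    rwa [select_coe l k hk] at this
  · intro h x hx hpos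
    have hx' : x ∈ l := by simpa using hx
    obtain ⟨k, hk, rfl⟩ := List.getElem_of_mem hx'
    rw [select_coe l k hk]
    exact h k hk hpos

theorem gl_nonempty (l : List ℕ) :
    {v : ℕ | ∀ (k : ℕ) (h : k < l.length), 1 ≤ l[k] → gl (move l k) ≠ v}.Nonempty := by
  refine ⟨(∑ k ∈ Finset.range l.length, gl (move l k)) + 1, ?_⟩
  intro k hk _ h
  have := Finset.single_le_sum (f := fun k => gl (move l k)) (fun _ _ => Nat.zero_le _)
    (Finset.mem_range.2 hk)
  omega

theorem gl_ne (l : List ℕ) (k : ℕ) (hk : k < l.length) (hpos : 1 ≤ l[k]) :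
    gl (move l k) ≠ gl l := by
  have h := Nat.sInf_mem (gl_nonempty l)
  rw [← gl_eq] at h
  exact h k hk hpos

theorem exists_of_lt (l : List ℕ) (v : ℕ) (hv : v < gl l) :
    ∃ (k : ℕ) (h : k < l.length), 1 ≤ l[k] ∧ gl (move l k) = v := by
  rw [gl_eq] at hv
  have := Nat.notMem_of_lt_sInf hv
  simp only [Set.mem_ofPred_eq, not_forall, not_not] at this
  obtain ⟨k, hk, hpos, h⟩ := this
  exact ⟨k, hk, hpos, h⟩

theorem gl_le (l : List ℕ) (v : ℕ)
    (h : ∀ (k : ℕ) (hk : k < l.length), 1 ≤ l[k] → gl (move l k) ≠ v) : gl l ≤ v := by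
  rw [gl_eq]
  exact Nat.sInf_le h

theorem gl_zero_cons : ∀ (n : ℕ) (l : List ℕ), l.length = n → gl (0 :: l) = gl l := by
  intro n
  induction n using Nat.strong_induction_on with
  | _ n ih =>
    intro l hl
    rw [gl_eq, gl_eq]
    congr 1
    ext v
    simp only [Set.mem_ofPred_eq]
    have hmv : ∀ k, move (0 :: l) (k + 1) = 0 :: move l k := fun k => by simp [move]
    constructor
    · intro h k hk hpos
      have := h (k + 1) (by simpa using hk) (by simpa using hpos)
      rwa [hmv, ih (n - 1) (by omega) (move l k) (by rw [length_move hk, hl])] at this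
    · intro h k hk hpos
      cases k with
      | zero => simp at hpos
      | succ k =>
        have hk' : k < l.length := by simpa using hk
        rw [hmv, ih (n - 1) (by omega) (move l k) (by rw [length_move hk', hl])]
        exact h k hk' (by simpa using hpos)

theorem gl_nil : gl [] = 0 := by
  have := gl_le [] 0 (fun k hk => by simp at hk)
  omega

/-! ### The pair scan -/

/-- The joint scan for both parities. -/
def rP : Bool → ℕ → ℕ → List ℕ → Bool × ℕ
  | w, _, m, [] => (w, m)
  | false, c, m, p :: l => if p = 2 * c + 1 ∧ p < m then rP true c m l else rP false (c + 1) m l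
  | true, c, m, p :: l =>
    if p = 2 * c + 2 ∧ p < m then rP false (c + 1) (m - 1) l else rP true (c + 1) m l

theorem rP_const {m : ℕ} : ∀ {l : List ℕ} {w : Bool} {c : ℕ}, (∀ x ∈ l, m ≤ x) →
    rP w c m l = (w, m)
  | [], _, _, _ => by rw [rP]
  | p :: l, false, c, h => by
    have hp : m ≤ p := h p (by simp)
    rw [rP, if_neg (by omega)]
    exact rP_const (fun x hx => h x (by simp [hx]))
  | p :: l, true, c, h => by
    have hp : m ≤ p := h p (by simp)
    rw [rP, if_neg (by omega)]
    exact rP_const (fun x hx => h x (by simp [hx]))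

/-- The final values `F d` of the scans for the two parities, in terms of the joint scan. -/
def Concl (r : Bool × ℕ) (F : ℕ → ℕ) : Prop :=
  ∀ d, (r.1 = false → F d = r.2) ∧ (r.1 = true → (F d + d) % 2 = 1)

theorem pair (N : ℕ) (l : List ℕ) :
    (∀ c m lo, m ≤ N → Ok N lo l → 2 * c + 1 ≤ lo →
      Concl (rP false c m l) (fun d => rA d c m l)) ∧
    (∀ c m lo, m ≤ N → 1 ≤ m → Ok N lo l → 2 * c + 2 ≤ lo →
      Concl (rP true c m l)
        (fun d => if (m + d) % 2 = 0 then rA d c (m - 1) l else rA d (c + 1) m l)) := by
  induction l with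
  | nil =>
    refine ⟨?_, ?_⟩
    · intro c m lo _ _ _ d
      rw [rP]
      exact ⟨fun _ => rfl, fun h => by simp at h⟩
    · intro c m lo _ hm _ _ d
      rw [rP]
      refine ⟨fun h => by simp at h, fun _ => ?_⟩
      simp only [rA]
      split_ifs <;> omega
  | cons p l ih =>
    obtain ⟨ihV, ihW⟩ := ih
    refine ⟨?_, ?_⟩
    · intro c m lo hmN hok hinv d
      have hp := hok.1
      by_cases hpm : m ≤ p
      · have hall := hok.all_ge hpm
        rw [rP_const hall]
        simp only [rA_const hall]
        exact ⟨fun _ => trivial, fun h => by simp at h⟩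
      · have hokt := hok.tail (by omega)
        by_cases hpe : p = 2 * c + 1
        · rw [rP, if_pos (by omega)]
          have h := ihW c m (p + 1) hmN (by omega) hokt (by omega) d
          by_cases hd : (m + d) % 2 = 0
          · simp only [hd, if_true] at h
            simp only [rA_rej (show p < m ∧ p + (m + d) % 2 < 2 * c + 2 by omega)]
            exact h
          · simp only [hd, if_false] at h
            simp only [rA_acc (show ¬ (p < m ∧ p + (m + d) % 2 < 2 * c + 2) by omega)]
            exact h
        · rw [rP, if_neg (by omega)]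
          simp only [rA_acc (show ¬ (p < m ∧ p + (m + d) % 2 < 2 * c + 2) by omega)]
          exact ihV (c + 1) m (p + 1) hmN hokt (by omega) d
    · intro c m lo hmN hm1 hok hinv d
      have hp := hok.1
      by_cases hpm : m ≤ p
      · have hall := hok.all_ge hpm
        have hall' : ∀ x ∈ p :: l, m - 1 ≤ x := fun x hx => (Nat.sub_le _ _).trans (hall x hx)
        rw [rP_const hall]
        simp only [rA_const hall, rA_const hall']
        refine ⟨fun h => by simp at h, fun _ => ?_⟩
        split_ifs <;> omega
      · have hokt := hok.tail (by omega)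
        by_cases hpe : p = 2 * c + 2
        · rw [rP, if_pos (by omega)]
          have h := ihV (c + 1) (m - 1) (p + 1) (by omega) hokt (by omega) d
          by_cases hd : (m + d) % 2 = 0
          · simp only [hd, if_true]
            simp only [rA_acc (show ¬ (p < m - 1 ∧ p + (m - 1 + d) % 2 < 2 * c + 2) by omega)]
            exact h
          · simp only [hd, if_false]
            simp only [rA_rej (show p < m ∧ p + (m + d) % 2 < 2 * (c + 1) + 2 by omega)]
            exact h
        · rw [rP, if_neg (by omega)]
          have h := ihW (c + 1) m (p + 1) hmN hm1 hokt (by omega) d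
          by_cases hd : (m + d) % 2 = 0
          · simp only [hd, if_true] at h ⊢
            simp only [rA_acc (show ¬ (p < m - 1 ∧ p + (m - 1 + d) % 2 < 2 * c + 2) by omega)]
            exact h
          · simp only [hd, if_false] at h ⊢
            simp only [rA_acc (show ¬ (p < m ∧ p + (m + d) % 2 < 2 * (c + 1) + 2) by omega)]
            exact h

/-! ### Types and Grundy value one -/

/-- The scans decide whether the Grundy value is `0` or `1`. -/
def Rule (n : ℕ) (l : List ℕ) : Prop :=
  (gl l = 0 ↔ rA 0 0 n l % 2 = 0) ∧ (gl l = 1 ↔ rA 1 0 n l % 2 = 1)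

theorem step (n : ℕ) (ih : ∀ n' < n, ∀ l : List ℕ, l.length = n' → Ok n' 1 l → Rule n' l)
    (l : List ℕ) (hlen : l.length = n) (hok : Ok n 1 l) (k : ℕ) (hk : k < l.length) :
    (gl (move l k) = 0 ↔ (rB 0 0 n (l.eraseIdx k) + 0) % 2 = 1) ∧
      (gl (move l k) = 1 ↔ (rB 1 0 n (l.eraseIdx k) + 1) % 2 = 1) := by
  have hL : (l.eraseIdx k).length = n - 1 := by
    rw [List.length_eraseIdx, if_pos hk, hlen]
  have hokL := ok_eraseIdx l 1 k hok
  unfold move
  generalize l.eraseIdx k = L at hL hokL
  cases L with
  | nil =>
    have hn : n = 1 := by simp at hL; omega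
    subst hn
    simp [rB, gl_nil]
  | cons p t =>
    have hn : 2 ≤ n := by
      rw [List.length_cons] at hL
      omega
    by_cases hp : p = 1
    · subst hp
      have hokt := hokL.tail (by omega)
      rw [List.map_cons, show (1 : ℕ) - 1 = 0 from rfl, rB_rej (by omega), rB_rej (by omega)]
      rw [gl_zero_cons _ _ rfl]
      have hlen' : (t.map fun a => a - 1).length = n - 2 := by
        rw [List.length_map]
        rw [List.length_cons] at hL
        omega
      have hok' : Ok (n - 2) 1 (t.map fun a => a - 1) :=
        (ok_map t 1 hokt).monoN (by omega)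
      obtain ⟨h0, h1⟩ := ih (n - 2) (by omega) _ hlen' hok'
      rw [h0, h1]
      rw [shift t 0 (n - 1) (by omega) fun x hx => by have := hokt.ge x hx; omega]
      rw [shift t 0 (n - 1) (by omega) fun x hx => by have := hokt.ge x hx; omega]
      rw [show n - 1 - 1 = n - 2 by omega]
      omega
    · have hp2 : 2 ≤ p := by
        have := hokL.1
        omega
      have hokL' : Ok n (1 + 1) (p :: t) := ⟨hp2, hokL.2⟩
      have hlen' : ((p :: t).map fun a => a - 1).length = n - 1 := by
        rw [List.length_map, hL]
      obtain ⟨h0, h1⟩ := ih (n - 1) (by omega) _ hlen' (ok_map _ 1 hokL')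
      rw [h0, h1]
      rw [shift (p :: t) 0 n (by omega) fun x hx => by have := hokL'.ge x hx; omega]
      rw [shift (p :: t) 0 n (by omega) fun x hx => by have := hokL'.ge x hx; omega]
      omega

theorem disj (n : ℕ) (l : List ℕ) (hok : Ok n 1 l) :
    ¬ (rA 0 0 n l % 2 = 0 ∧ rA 1 0 n l % 2 = 1) := by
  rintro ⟨h0, h1⟩
  have h := (pair n l).1 0 n 1 le_rfl hok (by omega)
  rcases hb : (rP false 0 n l).1 with _ | _
  · have e0 := (h 0).1 hb
    have e1 := (h 1).1 hb
    simp only at e0 e1
    omega
  · have e0 := (h 0).2 hb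
    simp only at e0
    omega

theorem rule (n : ℕ) : ∀ l : List ℕ, l.length = n → Ok n 1 l → Rule n l := by
  induction n using Nat.strong_induction_on with
  | _ n ih =>
    intro l hlen hok
    have hst := step n ih l hlen hok
    have hpos : ∀ (k : ℕ) (hk : k < l.length), 1 ≤ l[k] :=
      fun k hk => hok.ge _ (List.getElem_mem hk)
    rcases Nat.eq_zero_or_pos n with rfl | hn
    · have hl : l = [] := List.length_eq_zero_iff.1 hlen
      subst hl
      refine ⟨?_, ?_⟩ <;> simp [gl_nil, rA]
    have h0 : gl l = 0 ↔ rA 0 0 n l % 2 = 0 := by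
      constructor
      · intro h
        by_contra hcon
        obtain ⟨k, hk, hk'⟩ := exists_odd (d := 0) n l hlen hok hn (by omega)
        have hkl : k < l.length := by omega
        have := gl_ne l k hkl (hpos k hkl)
        exact this (((hst k hkl).1.2 hk').trans h.symm)
      · intro h
        have := gl_le l 0 (fun k hk _ hcon => by
          have h1 := (hst k hk).1.1 hcon
          have h2 := all_even (d := 0) n l hok (by omega) k
          omega)
        omega
    refine ⟨h0, ?_⟩
    constructor
    · intro h
      by_contra hcon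
      obtain ⟨k, hk, hk'⟩ := exists_odd (d := 1) n l hlen hok hn (by omega)
      have hkl : k < l.length := by omega
      have := gl_ne l k hkl (hpos k hkl)
      exact this (((hst k hkl).2.2 hk').trans h.symm)
    · intro h
      have h1 := gl_le l 1 (fun k hk _ hcon => by
        have h1 := (hst k hk).2.1 hcon
        have h2 := all_even (d := 1) n l hok (by omega) k
        omega)
      have h2 : gl l ≠ 0 := by
        intro h3
        exact disj n l hok ⟨h0.1 h3, h⟩
      omega

/-- The joint scan gives the Grundy value if this is `0` or `1`. -/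
theorem gl_of_rP (n : ℕ) (l : List ℕ) (hlen : l.length = n) (hok : Ok n 1 l) :
    ((rP false 0 n l).1 = false → gl l = (rP false 0 n l).2 % 2) ∧
      ((rP false 0 n l).1 = true → 2 ≤ gl l) := by
  obtain ⟨h0, h1⟩ := rule n l hlen hok
  have h := (pair n l).1 0 n 1 le_rfl hok (by omega)
  constructor
  · intro hb
    have e0 := (h 0).1 hb
    have e1 := (h 1).1 hb
    simp only at e0 e1
    rcases Nat.mod_two_eq_zero_or_one (rP false 0 n l).2 with hm | hm
    · rw [hm]
      exact h0.2 (by omega)
    · rw [hm]
      exact h1.2 (by omega)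
  · intro hb
    have e0 := (h 0).2 hb
    have e1 := (h 1).2 hb
    simp only at e0 e1
    have a0 : gl l ≠ 0 := fun h => by have := h0.1 h; omega
    have a1 : gl l ≠ 1 := fun h => by have := h1.1 h; omega
    omega

end Q111.CookieG
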