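import Mathlib

/-!
# Two scans of an increasing list

Combinatorial core of the solution of the winning component problem for the cookie game.
-/

namespace Q111.Cookie

/-- The first scan (type of a position). -/
def runA : ℕ → ℕ → List ℕ → ℕ
  | _, m, [] => m
  | c, m, p :: l =>
    if p < m ∧ p + m % 2 < 2 * c + 2 then runA c (m - 1) l else runA (c + 1) m l

/-- The second scan (type of the position after a move, read on the old sizes). -/
def runB : ℕ → ℕ → List ℕ → ℕ
  | _, m, [] => m
  | c, m, p :: l =>
    if p < m ∧ p < 2 * c + 2 + m % 2 then runB c (m - 1) l else runB (c + 1) m l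

/-- The common outcome of the removals before the last rejection. -/
def tau : ℕ → ℕ → List ℕ → Prop
  | _, _, [] => False
  | c, m, p :: l =>
    if p < m ∧ p + m % 2 < 2 * c + 2 then
      (if runA c (m - 1) l = m - 1 then runB c m l % 2 = 1 else tau c (m - 1) l)
    else tau (c + 1) m l

/-- `l` is non-decreasing, has all entries at least `lo`, and its entries below `N` are distinct. -/
def Ok (N : ℕ) : ℕ → List ℕ → Prop
  | _, [] => True
  | lo, p :: l => lo ≤ p ∧ Ok N (if p < N then p + 1 else p) l

theorem Ok.mono {N : ℕ} : ∀ {l : List ℕ} {lo lo' : ℕ}, Ok N lo l → lo' ≤ lo → Ok N lo' l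
  | [], _, _, _, _ => trivial
  | _ :: _, _, _, h, h' => ⟨h'.trans h.1, h.2⟩

theorem Ok.monoN {N N' : ℕ} (hN : N' ≤ N) :
    ∀ {l : List ℕ} {lo : ℕ}, Ok N lo l → Ok N' lo l
  | [], _, _ => trivial
  | p :: l, lo, h => by
    refine ⟨h.1, ?_⟩
    have h2 := h.2
    refine (Ok.monoN hN h2).mono ?_
    split_ifs <;> omega

theorem Ok.ge {N : ℕ} : ∀ {l : List ℕ} {lo : ℕ}, Ok N lo l → ∀ x ∈ l, lo ≤ x
  | [], _, _, _, hx => by simp at hx
  | p :: l, lo, h, x, hx => by
    rcases List.mem_cons.1 hx with rfl | hx
    · exact h.1
    · have := Ok.ge h.2 x hx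
      have h1 := h.1
      split_ifs at this <;> omega

theorem runA_const {m : ℕ} : ∀ {l : List ℕ} {c : ℕ}, (∀ x ∈ l, m ≤ x) → runA c m l = m
  | [], _, _ => rfl
  | p :: l, c, h => by
    have hp : m ≤ p := h p (by simp)
    rw [runA, if_neg (by omega)]
    exact runA_const (fun x hx => h x (by simp [hx]))

theorem runB_const {m : ℕ} : ∀ {l : List ℕ} {c : ℕ}, (∀ x ∈ l, m ≤ x) → runB c m l = m
  | [], _, _ => rfl
  | p :: l, c, h => by
    have hp : m ≤ p := h p (by simp)
    rw [runB, if_neg (by omega)]
    exact runB_const (fun x hx => h x (by simp [hx]))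

theorem runA_le : ∀ {l : List ℕ} {c m : ℕ}, runA c m l ≤ m
  | [], _, _ => le_rfl
  | p :: l, c, m => by
    rw [runA]
    split_ifs
    · exact runA_le.trans (by omega)
    · exact runA_le

/-- How the outcome `b` of a branch depends on the final value `a` of the first scan. -/
def Agree (a b : ℕ) (t : Prop) : Prop :=
  (a % 2 = 0 → b % 2 = 0) ∧ (a % 2 = 1 → (b % 2 = 1 ↔ t))

theorem Ok.tail {N lo p : ℕ} {l : List ℕ} (h : Ok N lo (p :: l)) (hp : p < N) : Ok N (p + 1) l := by
  have h2 := h.2
  rwa [if_pos hp] at h2

theorem Ok.all_ge {N lo p m : ℕ} {l : List ℕ} (h : Ok N lo (p :: l)) (hp : m ≤ p) :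
    ∀ x ∈ p :: l, m ≤ x := by
  intro x hx
  rcases List.mem_cons.1 hx with rfl | hx
  · exact hp
  · have := Ok.ge h.2 x hx
    split_ifs at this <;> omega

theorem runA_acc {c m p : ℕ} {l : List ℕ} (h : ¬ (p < m ∧ p + m % 2 < 2 * c + 2)) :
    runA c m (p :: l) = runA (c + 1) m l := by
  rw [runA, if_neg h]

theorem runA_rej {c m p : ℕ} {l : List ℕ} (h : p < m ∧ p + m % 2 < 2 * c + 2) :
    runA c m (p :: l) = runA c (m - 1) l := by
  rw [runA, if_pos h]

theorem runB_acc {c m p : ℕ} {l : List ℕ} (h : ¬ (p < m ∧ p < 2 * c + 2 + m % 2)) :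
    runB c m (p :: l) = runB (c + 1) m l := by
  rw [runB, if_neg h]

theorem runB_rej {c m p : ℕ} {l : List ℕ} (h : p < m ∧ p < 2 * c + 2 + m % 2) :
    runB c m (p :: l) = runB c (m - 1) l := by
  rw [runB, if_pos h]

theorem tau_acc {c m p : ℕ} {l : List ℕ} (h : ¬ (p < m ∧ p + m % 2 < 2 * c + 2)) :
    tau c m (p :: l) = tau (c + 1) m l := by
  rw [tau, if_neg h]

theorem tau_rej {c m p : ℕ} {l : List ℕ} (h : p < m ∧ p + m % 2 < 2 * c + 2) :
    tau c m (p :: l) =
      (if runA c (m - 1) l = m - 1 then runB c m l % 2 = 1 else tau c (m - 1) l) := by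
  rw [tau, if_pos h]

theorem stu (N : ℕ) (l : List ℕ) :
    (∀ c m lo, m ≤ N → Ok N lo l → 2 * c + 3 ≤ lo + m % 2 →
      (runA (c + 1) m l = m → runB c m l = m) ∧
      (runA (c + 1) m l ≠ m → Agree (runA (c + 1) m l) (runB c m l) (tau (c + 1) m l))) ∧
    (∀ c m lo, m + 1 ≤ N → Ok N lo l → m % 2 = 1 → 2 * c + 1 ≤ lo →
      runA c m l ≠ m → Agree (runA c m l) (runB c (m + 1) l) (tau c m l)) ∧
    (∀ c m lo, m ≤ N → Ok N lo l → m % 2 = 1 → 2 * c + 4 ≤ lo →
      (runA (c + 2) m l = m → runB c (m - 1) l = m - 1) ∧
      (runA (c + 2) m l ≠ m → Agree (runA (c + 2) m l) (runB c (m - 1) l) (tau (c + 2) m l))) := by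
  induction l with
  | nil =>
    refine ⟨?_, ?_, ?_⟩
    · intro c m lo _ _ _
      exact ⟨fun _ => rfl, fun h => absurd rfl h⟩
    · intro c m lo _ _ _ _ h
      exact absurd rfl h
    · intro c m lo _ _ _ _
      exact ⟨fun _ => rfl, fun h => absurd rfl h⟩
  | cons p l ih =>
    obtain ⟨ihS, ihT, ihU⟩ := ih
    refine ⟨?_, ?_, ?_⟩
    · -- S
      intro c m lo hmN hok hinv
      have hp := hok.1
      by_cases hpm : m ≤ p
      · have hall := hok.all_ge hpm
        exact ⟨fun _ => runB_const hall, fun h => absurd (runA_const hall) h⟩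
      · have hpm' : p < m := by omega
        have hokt := hok.tail (by omega)
        rcases Nat.mod_two_eq_zero_or_one m with hm | hm
        · by_cases hacc : 2 * c + 4 ≤ p
          · rw [runA_acc (by omega), runB_acc (by omega), tau_acc (by omega)]
            exact ihS (c + 1) m (p + 1) hmN hokt (by omega)
          · have hpe : p = 2 * c + 3 := by omega
            rw [runA_rej (by omega), runB_acc (by omega), tau_rej (by omega)]
            have hle : runA (c + 1) (m - 1) l ≤ m - 1 := runA_le
            refine ⟨fun h => by omega, fun _ => ?_⟩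
            by_cases h1 : runA (c + 1) (m - 1) l = m - 1
            · rw [if_pos h1]
              refine ⟨fun h => by omega, fun _ => Iff.rfl⟩
            · rw [if_neg h1]
              have := ihT (c + 1) (m - 1) (p + 1) (by omega) hokt (by omega) (by omega) h1
              rwa [show m - 1 + 1 = m by omega] at this
        · by_cases hacc : 2 * c + 3 ≤ p
          · rw [runA_acc (by omega), runB_acc (by omega), tau_acc (by omega)]
            exact ihS (c + 1) m (p + 1) hmN hokt (by omega)
          · have hpe : p = 2 * c + 2 := by omega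
            rw [runA_rej (by omega), runB_rej (by omega), tau_rej (by omega)]
            have hle : runA (c + 1) (m - 1) l ≤ m - 1 := runA_le
            refine ⟨fun h => by omega, fun _ => ?_⟩
            have hS := ihS c (m - 1) (p + 1) (by omega) hokt (by omega)
            by_cases h1 : runA (c + 1) (m - 1) l = m - 1
            · rw [if_pos h1]
              have h2 := hS.1 h1
              refine ⟨fun _ => by omega, fun h => by omega⟩
            · rw [if_neg h1]
              exact hS.2 h1
    · -- T
      intro c m lo hmN hok hm hinv hne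
      have hp := hok.1
      have hpm' : p < m := by
        by_contra hcon
        exact hne (runA_const (hok.all_ge (by omega)))
      have hokt := hok.tail (by omega)
      rw [runA_acc (by omega)] at hne ⊢
      rw [tau_acc (by omega)]
      by_cases hpe : p = 2 * c + 1
      · rw [runB_rej (by omega)]
        exact (ihS c m (p + 1) (by omega) hokt (by omega)).2 hne
      · rw [runB_acc (by omega)]
        exact ihT (c + 1) m (p + 1) hmN hokt hm (by omega) hne
    · -- U
      intro c m lo hmN hok hm hinv
      have hp := hok.1
      by_cases hpm : m ≤ p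
      · have hall := hok.all_ge hpm
        exact ⟨fun _ => runB_const fun x hx => (Nat.sub_le _ _).trans (hall x hx),
          fun h => absurd (runA_const hall) h⟩
      · have hpm' : p < m := by omega
        have hokt := hok.tail (by omega)
        rw [runB_acc (by omega)]
        by_cases hacc : 2 * c + 5 ≤ p
        · rw [runA_acc (by omega), tau_acc (by omega)]
          exact ihU (c + 1) m (p + 1) hmN hokt hm (by omega)
        · have hpe : p = 2 * c + 4 := by omega
          rw [runA_rej (by omega), tau_rej (by omega)]
          have hle : runA (c + 2) (m - 1) l ≤ m - 1 := runA_le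
          refine ⟨fun h => by omega, fun _ => ?_⟩
          have hS := ihS (c + 1) (m - 1) (p + 1) (by omega) hokt (by omega)
          by_cases h1 : runA (c + 2) (m - 1) l = m - 1
          · rw [if_pos h1]
            have h2 := hS.1 h1
            refine ⟨fun _ => by omega, fun h => by omega⟩
          · rw [if_neg h1]
            exact hS.2 h1

/-- The winning set before a removal. -/
def Shape (l : List ℕ) (c m : ℕ) (t : Prop) (z : Prop) : Prop :=
  ∃ i j, i ≤ j ∧ j ≤ l.length ∧ (z → i = 0) ∧
    ∀ k ≤ l.length, (runB c m (l.eraseIdx k) % 2 = 1 ↔ (k < i ∧ t) ∨ (i ≤ k ∧ k ≤ j))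

theorem forall_mem_eraseIdx {m k : ℕ} {l : List ℕ} (h : ∀ x ∈ l, m ≤ x) :
    ∀ x ∈ l.eraseIdx k, m ≤ x := fun x hx => h x (List.mem_of_mem_eraseIdx hx)

theorem shape_shift {p c m c' m' : ℕ} {l : List ℕ} {t z z' : Prop}
    (hk : ∀ l', runB c m (p :: l') = runB c' m' l') (h0 : runB c m l % 2 = 1 ↔ t)
    (h : Shape l c' m' t z) (hz : ¬ z') : Shape (p :: l) c m t z' := by
  obtain ⟨i, j, hij, hj, _, hw⟩ := h
  refine ⟨i + 1, j + 1, by omega, by simpa using hj, fun h => absurd h hz, ?_⟩
  intro k hkl
  cases k with
  | zero => simp [h0]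
  | succ k =>
    rw [List.eraseIdx_cons_succ, hk, hw k (by simpa using hkl)]
    simp

theorem shape_zero {p c m c' m' : ℕ} {l : List ℕ} {t t' z z' : Prop}
    (hk : ∀ l', runB c m (p :: l') = runB c' m' l') (h0 : runB c m l % 2 = 1)
    (h : Shape l c' m' t z) (hz : z) : Shape (p :: l) c m t' z' := by
  obtain ⟨i, j, hij, hj, hi, hw⟩ := h
  have hi0 := hi hz
  subst hi0
  refine ⟨0, j + 1, by omega, by simpa using hj, fun _ => rfl, ?_⟩
  intro k hkl
  cases k with
  | zero => simp [h0]
  | succ k =>
    rw [List.eraseIdx_cons_succ, hk, hw k (by simpa using hkl)]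
    simp

theorem shape_one {p c m c' m' : ℕ} {l : List ℕ} {t t' z z' : Prop}
    (hk : ∀ l', runB c m (p :: l') = runB c' m' l') (h0 : runB c m l % 2 = 1 ↔ t')
    (h : Shape l c' m' t z) (hz : z) (hz' : ¬ z') : Shape (p :: l) c m t' z' := by
  obtain ⟨i, j, hij, hj, hi, hw⟩ := h
  have hi0 := hi hz
  subst hi0
  refine ⟨1, j + 1, by omega, by simpa using hj, fun h => absurd h hz', ?_⟩
  intro k hkl
  cases k with
  | zero => simp [h0]
  | succ k =>
    rw [List.eraseIdx_cons_succ, hk, hw k (by simpa using hkl)]
    simp

theorem shape_single {p c m c' m' : ℕ} {l : List ℕ} {t z : Prop}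
    (hk : ∀ l', runB c m (p :: l') = runB c' m' l') (h0 : runB c m l % 2 = 1)
    (h : ∀ k, runB c' m' (l.eraseIdx k) % 2 = 0) : Shape (p :: l) c m t z := by
  refine ⟨0, 0, le_rfl, Nat.zero_le _, fun _ => rfl, ?_⟩
  intro k _
  cases k with
  | zero => simp [h0]
  | succ k =>
    rw [List.eraseIdx_cons_succ, hk]
    simp [h k]

theorem even_cons {p c m c' m' : ℕ} {l : List ℕ}
    (hk : ∀ l', runB c m (p :: l') = runB c' m' l') (h0 : runB c m l % 2 = 0)
    (h : ∀ k, runB c' m' (l.eraseIdx k) % 2 = 0) (k : ℕ) :
    runB c m ((p :: l).eraseIdx k) % 2 = 0 := by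
  cases k with
  | zero => simpa using h0
  | succ k => rw [List.eraseIdx_cons_succ, hk, h k]

theorem rr (N : ℕ) (l : List ℕ) :
    (∀ c m lo, m ≤ N → Ok N lo l → 2 * c + 1 ≤ lo →
      (runA c m l % 2 = 0 → ∀ k, runB c m (l.eraseIdx k) % 2 = 0) ∧
      (runA c m l % 2 = 1 → Shape l c m (tau c m l) (runA c m l = m))) ∧
    (∀ c m lo, m ≤ N → Ok N lo l → m % 2 = 1 → 2 * c + 2 ≤ lo →
      (runA (c + 1) m l = m → ∀ k, runB c (m - 1) (l.eraseIdx k) % 2 = 0) ∧
      (runA (c + 1) m l % 2 = 0 → ∀ k, runB c (m - 1) (l.eraseIdx k) % 2 = 0) ∧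
      (runA (c + 1) m l ≠ m → runA (c + 1) m l % 2 = 1 →
        Shape l c (m - 1) (tau (c + 1) m l) False)) := by
  induction l with
  | nil =>
    refine ⟨?_, ?_⟩
    · intro c m lo _ _ _
      refine ⟨fun h k => by simpa [runA, runB] using h,
        fun h => ⟨0, 0, le_rfl, Nat.zero_le _, fun _ => rfl, ?_⟩⟩
      intro k hk
      have hk0 : k = 0 := by simpa using hk
      subst hk0
      have h' : m % 2 = 1 := h
      simp [runB, h']
    · intro c m lo _ _ hm _
      refine ⟨fun _ k => ?_, fun h k => ?_, fun h => absurd rfl h⟩
      · simp only [List.eraseIdx_nil, runB]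
        omega
      · simp only [List.eraseIdx_nil, runB]
        omega
  | cons p l ih =>
    obtain ⟨ihR, ihQ⟩ := ih
    obtain ⟨hS, hT, hU⟩ := stu N l
    refine ⟨?_, ?_⟩
    · -- R
      intro c m lo hmN hok hinv
      have hp := hok.1
      by_cases hpm : m ≤ p
      · have hall := hok.all_ge hpm
        rw [runA_const hall]
        refine ⟨fun h k => ?_, fun h => ⟨0, (p :: l).length, Nat.zero_le _, le_rfl, fun _ => rfl, ?_⟩⟩
        · rw [runB_const (forall_mem_eraseIdx hall)]
          exact h
        · intro k hk
          rw [runB_const (forall_mem_eraseIdx hall)]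
          constructor
          · intro _
            exact Or.inr ⟨Nat.zero_le _, hk⟩
          · intro _
            exact h
      · have hpm' : p < m := by omega
        have hokt := hok.tail (by omega)
        rcases Nat.mod_two_eq_zero_or_one m with hm | hm
        · by_cases hacc : 2 * c + 2 ≤ p
          · -- both accept
            rw [runA_acc (by omega), tau_acc (by omega)]
            have hB : ∀ l', runB c m (p :: l') = runB (c + 1) m l' :=
              fun l' => runB_acc (by omega)
            have hIH := ihR (c + 1) m (p + 1) hmN hokt (by omega)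
            have hs := hS c m (p + 1) hmN hokt (by omega)
            refine ⟨fun h => ?_, fun h => ?_⟩
            · refine even_cons hB ?_ (hIH.1 h)
              by_cases h1 : runA (c + 1) m l = m
              · rw [hs.1 h1]; exact hm
              · exact (hs.2 h1).1 h
            · have h1 : runA (c + 1) m l ≠ m := by
                intro h1
                rw [h1] at h
                omega
              exact shape_shift hB ((hs.2 h1).2 h) (hIH.2 h) h1
          · -- both reject
            rw [runA_rej (by omega), tau_rej (by omega)]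
            have hB : ∀ l', runB c m (p :: l') = runB c (m - 1) l' :=
              fun l' => runB_rej (by omega)
            have hIH := ihR c (m - 1) (p + 1) (by omega) hokt (by omega)
            have ht := hT c (m - 1) (p + 1) (by omega) hokt (by omega) (by omega)
            rw [show m - 1 + 1 = m by omega] at ht
            have hle : runA c (m - 1) l ≤ m - 1 := runA_le
            have hne : runA c (m - 1) l ≠ m := by omega
            refine ⟨fun h => ?_, fun h => ?_⟩
            · refine even_cons hB ?_ (hIH.1 h)
              have h1 : runA c (m - 1) l ≠ m - 1 := by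
                intro h1
                rw [h1] at h
                omega
              exact (ht h1).1 h
            · by_cases h1 : runA c (m - 1) l = m - 1
              · rw [if_pos h1]
                exact shape_one hB Iff.rfl (hIH.2 h) h1 hne
              · rw [if_neg h1]
                exact shape_shift hB ((ht h1).2 h) (hIH.2 h) hne
        · -- m odd: the first scan accepts
          rw [runA_acc (by omega), tau_acc (by omega)]
          have hs := hS c m (p + 1) hmN hokt (by omega)
          by_cases hacc : 2 * c + 3 ≤ p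
          · have hB : ∀ l', runB c m (p :: l') = runB (c + 1) m l' :=
              fun l' => runB_acc (by omega)
            have hIH := ihR (c + 1) m (p + 1) hmN hokt (by omega)
            refine ⟨fun h => ?_, fun h => ?_⟩
            · refine even_cons hB ?_ (hIH.1 h)
              have h1 : runA (c + 1) m l ≠ m := by
                intro h1
                rw [h1] at h
                omega
              exact (hs.2 h1).1 h
            · by_cases h1 : runA (c + 1) m l = m
              · refine shape_zero hB ?_ (hIH.2 h) h1
                rw [hs.1 h1]; exact hm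
              · exact shape_shift hB ((hs.2 h1).2 h) (hIH.2 h) h1
          · have hB : ∀ l', runB c m (p :: l') = runB c (m - 1) l' :=
              fun l' => runB_rej (by omega)
            have hIH := ihQ c m (p + 1) hmN hokt hm (by omega)
            refine ⟨fun h => ?_, fun h => ?_⟩
            · refine even_cons hB ?_ (hIH.2.1 h)
              have h1 : runA (c + 1) m l ≠ m := by
                intro h1
                rw [h1] at h
                omega
              exact (hs.2 h1).1 h
            · by_cases h1 : runA (c + 1) m l = m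
              · refine shape_single hB ?_ (hIH.1 h1)
                rw [hs.1 h1]; exact hm
              · exact shape_shift hB ((hs.2 h1).2 h) (hIH.2.2 h1 h) h1
    · -- Q
      intro c m lo hmN hok hm hinv
      have hp := hok.1
      by_cases hpm : m ≤ p
      · have hall := hok.all_ge hpm
        have hB : ∀ k, runB c (m - 1) ((p :: l).eraseIdx k) % 2 = 0 := by
          intro k
          rw [runB_const (forall_mem_eraseIdx fun x hx => (Nat.sub_le _ _).trans (hall x hx))]
          omega
        exact ⟨fun _ => hB, fun _ => hB, fun h => absurd (runA_const hall) h⟩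
      · have hpm' : p < m := by omega
        have hokt := hok.tail (by omega)
        have hB : ∀ l', runB c (m - 1) (p :: l') = runB (c + 1) (m - 1) l' :=
          fun l' => runB_acc (by omega)
        by_cases hacc : 2 * c + 3 ≤ p
        · rw [runA_acc (by omega), tau_acc (by omega)]
          have hu := hU c m (p + 1) hmN hokt hm (by omega)
          have hIH := ihQ (c + 1) m (p + 1) hmN hokt hm (by omega)
          refine ⟨fun h => ?_, fun h => ?_, fun h1 h => ?_⟩
          · refine even_cons hB ?_ (hIH.1 h)
            rw [hu.1 h]; omega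
          · refine even_cons hB ?_ (hIH.2.1 h)
            by_cases h1 : runA (c + 1 + 1) m l = m
            · rw [hu.1 h1]; omega
            · exact (hu.2 h1).1 h
          · exact shape_shift hB ((hu.2 h1).2 h) (hIH.2.2 h1 h) not_false
        · rw [runA_rej (by omega), tau_rej (by omega)]
          have hle : runA (c + 1) (m - 1) l ≤ m - 1 := runA_le
          have hs := hS c (m - 1) (p + 1) (by omega) hokt (by omega)
          have hIH := ihR (c + 1) (m - 1) (p + 1) (by omega) hokt (by omega)
          refine ⟨fun h => by omega, fun h => ?_, fun _ h => ?_⟩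
          · refine even_cons hB ?_ (hIH.1 h)
            by_cases h1 : runA (c + 1) (m - 1) l = m - 1
            · rw [hs.1 h1]; omega
            · exact (hs.2 h1).1 h
          · have h1 : runA (c + 1) (m - 1) l ≠ m - 1 := by
              intro h1
              rw [h1] at h
              omega
            rw [if_neg h1]
            exact shape_shift hB ((hs.2 h1).2 h) (hIH.2 h) not_false

end Q111.Cookie
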