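import Pool.Agent.Q111.CookieDefs
import Pool.Agent.Q111.CookieRun

namespace Q111.Cookie

theorem typeN_iff_winning (G : List ℕ) : TypeN G ↔ ∃ k, Winning G k := by
  rw [TypeN]
  rfl

theorem length_move {G : List ℕ} {k : ℕ} (h : k < G.length) : (move G k).length = G.length - 1 := by
  simp only [move, List.length_map]
  rw [List.length_eraseIdx, if_pos h]

theorem typeN_zero_cons : ∀ (n : ℕ) (L : List ℕ), L.length = n → (TypeN (0 :: L) ↔ TypeN L) := by
  intro n
  induction n using Nat.strong_induction_on with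
  | _ n ih =>
    intro L hL
    rw [TypeN, TypeN]
    constructor
    · rintro ⟨k, hk, hpos, hN⟩
      cases k with
      | zero => simp at hpos
      | succ k =>
        have hk' : k < L.length := by simpa using hk
        refine ⟨k, hk', by simpa using hpos, ?_⟩
        intro hcon
        apply hN
        have : move (0 :: L) (k + 1) = 0 :: move L k := by simp [move]
        rw [this]
        exact (ih (n - 1) (by omega) (move L k) (by rw [length_move hk', hL])).2 hcon
    · rintro ⟨k, hk, hpos, hN⟩
      refine ⟨k + 1, by simpa using hk, by simpa using hpos, ?_⟩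
      intro hcon
      apply hN
      have : move (0 :: L) (k + 1) = 0 :: move L k := by simp [move]
      rw [this] at hcon
      exact (ih (n - 1) (by omega) (move L k) (by rw [length_move hk, hL])).1 hcon

theorem shift : ∀ (l : List ℕ) (c m : ℕ), 1 ≤ m → (∀ x ∈ l, 1 ≤ x) →
    runB c m l = runA c (m - 1) (l.map fun a => a - 1) + 1
  | [], c, m, hm, _ => by simp only [runB, List.map_nil, runA]; omega
  | p :: l, c, m, hm, h => by
    have hp : 1 ≤ p := h p (by simp)
    rw [List.map_cons]
    by_cases hc : p < m ∧ p < 2 * c + 2 + m % 2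
    · rw [runB_rej hc, runA_rej (by omega), shift l c (m - 1) (by omega) fun x hx => h x (by simp [hx])]
    · rw [runB_acc hc, runA_acc (by omega), shift l (c + 1) m hm fun x hx => h x (by simp [hx])]

theorem ok_eraseIdx {N : ℕ} : ∀ (l : List ℕ) (lo k : ℕ), Ok N lo l → Ok N lo (l.eraseIdx k)
  | [], lo, k, _ => by simp [Ok]
  | p :: l, lo, 0, h => by
    simp only [List.eraseIdx_zero, List.tail_cons]
    refine Ok.mono h.2 ?_
    have := h.1
    split_ifs <;> omega
  | p :: l, lo, k + 1, h => by
    rw [List.eraseIdx_cons_succ]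
    exact ⟨h.1, ok_eraseIdx l _ k h.2⟩

theorem ok_map {N : ℕ} : ∀ (l : List ℕ) (lo : ℕ), Ok N (lo + 1) l →
    Ok (N - 1) lo (l.map fun a => a - 1)
  | [], lo, _ => by simp [Ok]
  | p :: l, lo, h => by
    rw [List.map_cons]
    have h1 := h.1
    refine ⟨by omega, ?_⟩
    have h2 := h.2
    by_cases hp : p < N
    · rw [if_pos hp] at h2
      rw [if_pos (by omega)]
      have := ok_map l p h2
      rwa [show p - 1 + 1 = p by omega]
    · rw [if_neg hp] at h2
      rw [if_neg (by omega)]
      exact ok_map l (p - 1) (by rwa [show p - 1 + 1 = p by omega])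

theorem runB_append : ∀ (l : List ℕ) (c m x : ℕ), m ≤ x → runB c m (l ++ [x]) = runB c m l
  | [], c, m, x, h => by
    rw [List.nil_append, runB_acc (by omega)]
    rfl
  | p :: l, c, m, x, h => by
    rw [List.cons_append]
    by_cases hc : p < m ∧ p < 2 * c + 2 + m % 2
    · rw [runB_rej hc, runB_rej hc]
      exact runB_append l c (m - 1) x (by omega)
    · rw [runB_acc hc, runB_acc hc]
      exact runB_append l (c + 1) m x h

theorem ok_last {N : ℕ} : ∀ (l : List ℕ) (lo x : ℕ), Ok N lo (l ++ [x]) → N ≤ x ∨ lo + l.length ≤ x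
  | [], lo, x, h => by
    right
    simpa using h.1
  | p :: l, lo, x, h => by
    rw [List.cons_append] at h
    have h1 := h.1
    have h2 := ok_last l _ x h.2
    rw [List.length_cons]
    split_ifs at h2 <;> omega

/-- The value of the second scan decides the type of the position after a move. -/
theorem step (n : ℕ)
    (ih : ∀ n' < n, ∀ G : List ℕ, G.length = n' → Ok n' 1 G →
      (TypeN G ↔ runA 0 n' G % 2 = 1))
    (G : List ℕ) (hlen : G.length = n) (hok : Ok n 1 G) (k : ℕ) (hk : k < G.length) :
    ¬ TypeN (move G k) ↔ runB 0 n (G.eraseIdx k) % 2 = 1 := by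
  have hL : (G.eraseIdx k).length = n - 1 := by
    rw [List.length_eraseIdx, if_pos hk, hlen]
  have hokL := ok_eraseIdx G 1 k hok
  unfold move
  generalize G.eraseIdx k = L at hL hokL
  cases L with
  | nil =>
    have hn : n = 1 := by simp at hL; omega
    subst hn
    simp only [List.map_nil, runB]
    refine ⟨fun _ => trivial, fun _ => ?_⟩
    rw [TypeN]
    rintro ⟨k, hk, _⟩
    simp at hk
  | cons p l =>
    have hn : 2 ≤ n := by
      rw [List.length_cons] at hL
      omega
    by_cases hp : p = 1
    · subst hp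
      have hokt := hokL.tail (by omega)
      rw [List.map_cons, show (1 : ℕ) - 1 = 0 from rfl, runB_rej (by omega)]
      rw [typeN_zero_cons _ _ rfl]
      have hlen' : (l.map fun a => a - 1).length = n - 2 := by
        rw [List.length_map]
        rw [List.length_cons] at hL
        omega
      have hok' : Ok (n - 2) 1 (l.map fun a => a - 1) :=
        (ok_map l 1 hokt).monoN (by omega)
      rw [ih (n - 2) (by omega) _ hlen' hok']
      rw [shift l 0 (n - 1) (by omega) fun x hx => by have := hokt.ge x hx; omega]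
      rw [show n - 1 - 1 = n - 2 by omega]
      omega
    · have hp2 : 2 ≤ p := by
        have := hokL.1
        omega
      have hokL' : Ok n (1 + 1) (p :: l) := ⟨hp2, hokL.2⟩
      have hlen' : ((p :: l).map fun a => a - 1).length = n - 1 := by
        rw [List.length_map, hL]
      rw [ih (n - 1) (by omega) _ hlen' (ok_map _ 1 hokL')]
      rw [shift (p :: l) 0 n (by omega) fun x hx => by have := hokL'.ge x hx; omega]
      omega

theorem last_erase (n : ℕ) (G : List ℕ) (hlen : G.length = n) (hok : Ok n 1 G) (hn : 1 ≤ n) :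
    runB 0 n (G.eraseIdx (n - 1)) = runB 0 n (G.eraseIdx n) := by
  obtain ⟨l, x, rfl⟩ : ∃ l x, G = l ++ [x] := by
    refine ⟨G.dropLast, G.getLast (by rintro rfl; simp at hlen; omega), ?_⟩
    rw [List.dropLast_append_getLast]
  have hll : l.length = n - 1 := by
    rw [List.length_append, List.length_singleton] at hlen
    omega
  have hx : n ≤ x := by
    have := ok_last l 1 x hok
    omega
  have e1 : (l ++ [x]).eraseIdx (n - 1) = l := by
    rw [← hll, List.eraseIdx_append_of_length_le le_rfl]
    simp
  have e2 : (l ++ [x]).eraseIdx n = l ++ [x] := by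
    apply List.eraseIdx_of_length_le
    omega
  rw [e1, e2, runB_append l 0 n x hx]

/-- The set of winning indices for the second scan. -/
theorem interval (n : ℕ) (G : List ℕ) (hlen : G.length = n) (hok : Ok n 1 G) (hn : 1 ≤ n)
    (hodd : runA 0 n G % 2 = 1) :
    ∃ i j, i ≤ j ∧ j < n ∧ ∀ k < n, (runB 0 n (G.eraseIdx k) % 2 = 1 ↔ i ≤ k ∧ k ≤ j) := by
  obtain ⟨i, j, hij, hj, _, hw⟩ := ((rr n G).1 0 n 1 le_rfl hok (by omega)).2 hodd
  rw [hlen] at hj hw
  by_cases ht : tau 0 n G
  · refine ⟨0, min j (n - 1), by omega, by omega, fun k hk => ?_⟩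
    rw [hw k hk.le]
    simp only [ht, and_true]
    omega
  · have hw' : ∀ k ≤ n, (runB 0 n (G.eraseIdx k) % 2 = 1 ↔ (i ≤ k ∧ k ≤ j)) := by
      intro k hk
      rw [hw k hk]
      simp only [ht, and_false, false_or]
    have hi : i < n := by
      by_contra hcon
      have h1 := (hw' n le_rfl).2 (by omega)
      have h2 := (hw' (n - 1) (by omega)).1 (by rwa [last_erase n G hlen hok hn])
      omega
    refine ⟨i, min j (n - 1), by omega, by omega, fun k hk => ?_⟩
    rw [hw' k hk.le]
    omega

theorem typeN_iff (n : ℕ) : ∀ G : List ℕ, G.length = n → Ok n 1 G →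
    (TypeN G ↔ runA 0 n G % 2 = 1) := by
  induction n using Nat.strong_induction_on with
  | _ n ih =>
    intro G hlen hok
    rw [typeN_iff_winning]
    constructor
    · rintro ⟨k, hk, _, hN⟩
      have h1 := (step n ih G hlen hok k hk).1 hN
      by_contra hcon
      have h2 := ((rr n G).1 0 n 1 le_rfl hok (by omega)).1 (by omega) k
      omega
    · intro hodd
      have hn : 1 ≤ n := by
        rcases Nat.eq_zero_or_pos n with rfl | h
        · have : runA 0 0 G ≤ 0 := runA_le
          omega
        · exact h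
      obtain ⟨i, j, hij, hj, hw⟩ := interval n G hlen hok hn hodd
      have hi : i < G.length := by omega
      refine ⟨i, hi, hok.ge _ (List.getElem_mem hi), ?_⟩
      exact (step n ih G hlen hok i hi).2 ((hw i (by omega)).2 ⟨le_rfl, hij⟩)

theorem ok_of_pairwise {N : ℕ} : ∀ (l : List ℕ) (lo : ℕ),
    l.Pairwise (fun a b => a ≤ b ∧ (a = b → N ≤ a)) → (∀ x ∈ l, lo ≤ x) → Ok N lo l
  | [], _, _, _ => trivial
  | p :: l, lo, h, hlo => by
    rw [List.pairwise_cons] at h
    refine ⟨hlo p (by simp), ok_of_pairwise l _ h.2 ?_⟩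
    intro x hx
    have := h.1 x hx
    split_ifs with hp
    · rcases Nat.lt_or_eq_of_le this.1 with h1 | h1
      · exact h1
      · have := this.2 h1
        omega
    · exact this.1

theorem ok_of_strict (G : List ℕ) (hs : G.Pairwise (· ≤ ·)) (hst : Strict G) :
    Ok G.length 1 G := by
  apply ok_of_pairwise
  · rw [List.pairwise_iff_getElem] at hs ⊢
    intro i j hi hj hij
    refine ⟨hs i j hi hj hij, fun h => ?_⟩
    rw [hst.2 i j hi hj hij.ne h]
  · exact hst.1

theorem winning_iff (G : List ℕ) (hok : Ok G.length 1 G) (k : ℕ) (hk : k < G.length) :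
    Winning G k ↔ runB 0 G.length (G.eraseIdx k) % 2 = 1 := by
  have h := step G.length (fun n' _ => typeN_iff n') G rfl hok k hk
  rw [← h]
  exact ⟨fun ⟨_, _, h⟩ => h, fun h => ⟨hk, hok.ge _ (List.getElem_mem hk), h⟩⟩

theorem eraseIdx_eq (G : List ℕ) (hs : G.Pairwise (· ≤ ·)) (k i : ℕ) (hki : k < i)
    (hi : i < G.length) (h : G[k]'(hki.trans hi) = G[i]) : G.eraseIdx k = G.eraseIdx i := by
  have hmono : ∀ (s t : ℕ) (hst : s ≤ t) (ht : t < G.length), G[s]'(hst.trans_lt ht) ≤ G[t] := by
    intro s t hst ht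
    rcases hst.lt_or_eq with h1 | h1
    · exact (List.pairwise_iff_getElem.1 hs) s t _ ht h1
    · subst h1; exact le_rfl
  apply List.ext_getElem
  · rw [List.length_eraseIdx, List.length_eraseIdx, if_pos (hki.trans hi), if_pos hi]
  · intro t h1 h2
    rw [List.getElem_eraseIdx, List.getElem_eraseIdx]
    rw [List.length_eraseIdx, if_pos hi] at h2
    split_ifs with h3 h4 h4
    · rfl
    · omega
    · have a1 := hmono k t (by omega) (by omega)
      have a2 := hmono t (t + 1) (by omega) (by omega)
      have a3 := hmono (t + 1) i (by omega) hi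
      omega
    · rfl

theorem main (G : List ℕ) (hs : G.Pairwise (· ≤ ·)) (hst : Strict G) (hN : TypeN G) :
    (∃ i j : ℕ, i ≤ j ∧ j < G.length ∧ ∀ k, Winning G k ↔ i ≤ k ∧ k ≤ j) ∧
      ∃ a b : ℕ, ∀ (k : ℕ) (hk : k < G.length), Winning G k ↔ a ≤ G[k] ∧ G[k] ≤ b := by
  have hok := ok_of_strict G hs hst
  have hodd := (typeN_iff G.length G rfl hok).1 hN
  have hn : 1 ≤ G.length := by
    rcases Nat.eq_zero_or_pos G.length with h | h
    · rw [h] at hodd
      have : runA 0 0 G ≤ 0 := runA_le
      omega
    · exact h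
  obtain ⟨i, j, hij, hj, hw⟩ := interval G.length G rfl hok hn hodd
  have hW : ∀ k, Winning G k ↔ i ≤ k ∧ k ≤ j := by
    intro k
    constructor
    · intro h
      have hk := h.1
      exact (hw k hk).1 ((winning_iff G hok k hk).1 h)
    · intro h
      have hk : k < G.length := by omega
      exact (winning_iff G hok k hk).2 ((hw k hk).2 h)
  have hmono : ∀ (s t : ℕ) (hst : s ≤ t) (ht : t < G.length), G[s]'(hst.trans_lt ht) ≤ G[t] := by
    intro s t hst ht
    rcases hst.lt_or_eq with h1 | h1
    · exact (List.pairwise_iff_getElem.1 hs) s t _ ht h1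
    · subst h1; exact le_rfl
  have hcongr : ∀ (s t : ℕ) (hst : s < t) (ht : t < G.length), G[s]'(hst.trans ht) = G[t] →
      (Winning G s ↔ Winning G t) := by
    intro s t hst' ht h
    have e := eraseIdx_eq G hs s t hst' ht h
    have e' : move G s = move G t := by unfold move; rw [e]
    unfold Winning
    rw [e']
    constructor
    · rintro ⟨h1, h2, h3⟩
      exact ⟨ht, h ▸ h2, h3⟩
    · rintro ⟨h1, h2, h3⟩
      exact ⟨hst'.trans ht, h.symm ▸ h2, h3⟩
  refine ⟨⟨i, j, hij, hj, hW⟩, G[i]'(by omega), G[j], ?_⟩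
  intro k hk
  constructor
  · intro h
    have := (hW k).1 h
    exact ⟨hmono i k this.1 hk, hmono k j this.2 hj⟩
  · rintro ⟨h1, h2⟩
    rcases lt_or_ge k i with h3 | h3
    · have h4 := hmono k i h3.le (by omega)
      exact (hcongr k i h3 (by omega) (le_antisymm h4 h1)).2 ((hW i).2 ⟨le_rfl, hij⟩)
    · rcases lt_or_ge j k with h5 | h5
      · have h4 := hmono j k h5.le hk
        exact (hcongr j k h5 hk (le_antisymm h4 h2)).1 ((hW j).2 ⟨hij, le_rfl⟩)
      · exact (hW k).2 ⟨h3, h5⟩

end Q111.Cookie
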