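import Mathlib

/-!
An intersecting family of `k`-sets containing a transversal of every matching of size `k`,
by a potential-function (derandomised) argument.
-/

namespace Q111.MatchHit

open Finset

variable {n k : ℕ}

/-- Transversal of the ordered matching `e` given by the Boolean vector `x`. -/
def tr (e : Fin k × Bool → Fin n) (x : Fin k → Bool) : Finset (Fin n) :=
  univ.image (fun i => e (i, x i))

/-- Number of transversals disjoint from `S`. -/
def xs (e : Fin k × Bool → Fin n) (S : Finset (Fin n)) : ℕ :=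
  (univ.filter (fun x : Fin k → Bool => Disjoint (tr e x) S)).card

/-- The matching is hit by the list. -/
def Hit (e : Fin k × Bool → Fin n) : List (Finset (Fin n)) → Prop
  | [] => False
  | S :: L => Hit e L ∨ ((∃ x, tr e x = S) ∧ ∀ S' ∈ L, ¬ Disjoint S S')

/-- Total number of kills. -/
def X (e : Fin k × Bool → Fin n) (L : List (Finset (Fin n))) : ℕ := (L.map (xs e)).sum

lemma card_tr {e : Fin k × Bool → Fin n} (he : Function.Injective e) (x : Fin k → Bool) :
    (tr e x).card = k := by
  unfold tr
  rw [card_image_of_injective, card_univ, Fintype.card_fin]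
  intro i j hij
  have := he hij
  exact (Prod.ext_iff.1 this).1

lemma tr_injective {e : Fin k × Bool → Fin n} (he : Function.Injective e) :
    Function.Injective (tr e) := by
  intro x y hxy
  funext i
  have h1 : e (i, x i) ∈ tr e y := by
    rw [← hxy]; exact mem_image.2 ⟨i, mem_univ _, rfl⟩
  obtain ⟨j, -, hj⟩ := mem_image.1 h1
  have h2 := he hj
  rw [Prod.mk.injEq] at h2
  obtain ⟨h3, h4⟩ := h2
  rw [← h4, h3]

/-- Number of `k`-sets disjoint from a given `k`-set. -/
lemma card_disjoint (P : Finset (Fin n)) (hP : P.card = k) :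
    ((powersetCard k (univ : Finset (Fin n))).filter (fun S => Disjoint P S)).card
      = (n - k).choose k := by
  classical
  have h1 : (powersetCard k (univ : Finset (Fin n))).filter (fun S => Disjoint P S)
      = powersetCard k Pᶜ := by
    ext S
    simp only [mem_filter, mem_powersetCard, subset_univ, true_and]
    rw [and_comm]
    refine and_congr_left fun _ => ?_
    rw [← subset_compl_iff_disjoint_left]
  rw [h1, card_powersetCard, card_compl, Fintype.card_fin, hP]

lemma sum_xs {e : Fin k × Bool → Fin n} (he : Function.Injective e) :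
    ∑ S ∈ powersetCard k (univ : Finset (Fin n)), xs e S = 2 ^ k * (n - k).choose k := by
  classical
  have := Finset.sum_card_bipartiteAbove_eq_sum_card_bipartiteBelow
    (s := powersetCard k (univ : Finset (Fin n))) (t := (univ : Finset (Fin k → Bool)))
    (fun S x => Disjoint (tr e x) S)
  unfold bipartiteAbove bipartiteBelow at this
  have h2 : ∀ S : Finset (Fin n), xs e S
      = ((univ : Finset (Fin k → Bool)).filter (fun x => Disjoint (tr e x) S)).card := fun S => rfl
  rw [sum_congr rfl fun S _ => h2 S, this]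
  rw [sum_congr rfl fun x _ => card_disjoint (tr e x) (card_tr he x), sum_const, card_univ,
    Fintype.card_fun, Fintype.card_bool, Fintype.card_fin, smul_eq_mul]

/-- A `k`-set is disjoint from at most `2^(n-2k)` transversals. -/
lemma xs_le {e : Fin k × Bool → Fin n} (he : Function.Injective e)
    {S : Finset (Fin n)} (hS : S.card = k) : xs e S ≤ 2 ^ (n - 2 * k) := by
  classical
  have h1 : univ.filter (fun x : Fin k → Bool => Disjoint (tr e x) S)
      = Fintype.piFinset (fun i => univ.filter (fun b : Bool => e (i, b) ∉ S)) := by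
    ext x
    simp only [mem_filter, mem_univ, true_and, Fintype.mem_piFinset]
    constructor
    · intro h i
      rw [disjoint_left] at h
      exact h (mem_image.2 ⟨i, mem_univ _, rfl⟩)
    · intro h
      rw [disjoint_left]
      intro z hz
      obtain ⟨i, -, rfl⟩ := mem_image.1 hz
      exact h i
  unfold xs
  rw [h1, Fintype.card_piFinset]
  -- the hit points
  by_cases hz : ∃ i, (univ.filter (fun b : Bool => e (i, b) ∉ S)).card = 0
  · obtain ⟨i, hi⟩ := hz
    rw [prod_eq_zero (mem_univ i) hi]
    exact Nat.zero_le _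
  push Not at hz
  set J : Finset (Fin k) := univ.filter (fun i => ∃ b, e (i, b) ∈ S) with hJ
  have hval : ∀ i, (univ.filter (fun b : Bool => e (i, b) ∉ S)).card ≤ if i ∈ J then 1 else 2 := by
    intro i
    split_ifs with hi
    · obtain ⟨b, hb⟩ := (mem_filter.1 hi).2
      have : univ.filter (fun b : Bool => e (i, b) ∉ S) ⊆ (univ : Finset Bool).erase b := by
        intro b' hb'
        rw [mem_erase]
        refine ⟨?_, mem_univ _⟩
        rintro rfl
        exact (mem_filter.1 hb').2 hb
      have := card_le_card this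
      rw [card_erase_of_mem (mem_univ _), card_univ, Fintype.card_bool] at this
      exact this
    · exact card_le_univ _
  have h2 : ∏ i : Fin k, (univ.filter (fun b : Bool => e (i, b) ∉ S)).card
      ≤ ∏ i : Fin k, (if i ∈ J then 1 else 2) :=
    prod_le_prod' fun i _ => hval i
  refine h2.trans ?_
  rw [prod_ite]
  simp only [prod_const_one, one_mul, prod_const]
  apply Nat.pow_le_pow_right (by norm_num)
  have h3 : univ.filter (fun i : Fin k => i ∉ J) = univ \ J := by
    ext i; simp
  rw [h3, card_sdiff_of_subset (subset_univ _), card_univ, Fintype.card_fin]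
  -- `|J| ≥ k - (n - 2k)`
  have h4 : (S ∩ univ.image e).card ≤ J.card := by
    have : S ∩ univ.image e ⊆ J.biUnion (fun i => (univ.filter (fun b : Bool => e (i, b) ∈ S)).image
        (fun b => e (i, b))) := by
      intro z hz
      obtain ⟨hz1, hz2⟩ := mem_inter.1 hz
      obtain ⟨⟨i, b⟩, -, rfl⟩ := mem_image.1 hz2
      exact mem_biUnion.2 ⟨i, mem_filter.2 ⟨mem_univ _, b, hz1⟩,
        mem_image.2 ⟨b, mem_filter.2 ⟨mem_univ _, hz1⟩, rfl⟩⟩
    refine (card_le_card this).trans (card_biUnion_le.trans ?_)
    have h5 : ∀ i ∈ J, ((univ.filter (fun b : Bool => e (i, b) ∈ S)).image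
        (fun b => e (i, b))).card ≤ 1 := by
      intro i _
      refine card_image_le.trans ?_
      have h6 := card_filter_add_card_filter_not (s := (univ : Finset Bool))
        (fun b => e (i, b) ∈ S)
      have h7 := hz i
      rw [card_univ, Fintype.card_bool] at h6
      omega
    have h6 := sum_le_card_nsmul J _ _ h5
    simpa using h6
  have h5 : (univ.image e).card = 2 * k := by
    rw [card_image_of_injective _ he, card_univ, Fintype.card_prod, Fintype.card_bool,
      Fintype.card_fin, mul_comm]
  have h6 : (S \ univ.image e).card ≤ n - 2 * k := by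
    have h7 : S \ univ.image e ⊆ (univ.image e)ᶜ := by
      intro z hz
      rw [mem_compl]; exact (mem_sdiff.1 hz).2
    have := card_le_card h7
    rw [card_compl, Fintype.card_fin, h5] at this
    exact this
  have h7 := card_inter_add_card_sdiff S (univ.image e)
  omega

open Classical in
/-- The weight of a matching. -/
noncomputable def W (a b lam c : ℝ) (r : ℕ) (e : Fin k × Bool → Fin n)
    (L : List (Finset (Fin n))) : ℝ :=
  if Hit e L then 0 else
    (if (X e L : ℝ) ≤ c then a ^ r else 0) + b ^ r * Real.exp (lam * ((X e L : ℝ) - c))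

lemma exp_le_two {y : ℝ} (h0 : 0 ≤ y) (h1 : y ≤ 1) : Real.exp y ≤ 1 + 2 * y := by
  have h := Real.exp_bound' h0 h1 (n := 2) (by norm_num)
  norm_num [Finset.sum_range_succ] at h
  nlinarith

lemma step {e : Fin k × Bool → Fin n} (he : Function.Injective e) (hkn : 2 * k ≤ n)
    (L : List (Finset (Fin n))) (r : ℕ) {a b lam : ℝ} {N D : ℕ}
    (hN : N = n.choose k) (hD : D = (n - k).choose k)
    (hlam : lam = ((2 : ℝ) ^ (n - 2 * k))⁻¹)
    (ha : a = 1 - (2 : ℝ) ^ k / (4 * N)) (ha0 : 0 ≤ a)
    (hb : b = 1 + 2 * lam * (2 : ℝ) ^ k * D / N) :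
    ∑ S ∈ powersetCard k (univ : Finset (Fin n)), W a b lam (3 / 4 * (2 : ℝ) ^ k) r e (S :: L)
      ≤ N * W a b lam (3 / 4 * (2 : ℝ) ^ k) (r + 1) e L := by
  classical
  set c : ℝ := 3 / 4 * (2 : ℝ) ^ k with hc
  have hNpos : 0 < (N : ℝ) := by
    rw [hN]; exact_mod_cast Nat.choose_pos (by omega)
  have hlampos : 0 < lam := by rw [hlam]; positivity
  have hbpos : 0 ≤ b := by rw [hb]; positivity
  by_cases hH : Hit e L
  · have h1 : ∀ S ∈ powersetCard k (univ : Finset (Fin n)), W a b lam c r e (S :: L) = 0 := by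
      intro S _
      have : Hit e (S :: L) := Or.inl hH
      unfold W
      rw [if_pos this]
    rw [sum_congr rfl h1]
    unfold W
    rw [if_pos hH]
    simp
  have hX : ∀ S, (X e (S :: L) : ℝ) = (xs e S : ℝ) + (X e L : ℝ) := by
    intro S
    unfold X
    rw [List.map_cons, List.sum_cons]
    push_cast
    rfl
  set K := powersetCard k (univ : Finset (Fin n)) with hK
  have hKc : K.card = N := by rw [hK, card_powersetCard, card_univ, Fintype.card_fin, hN]
  -- splitting
  have hsplit : ∑ S ∈ K, W a b lam c r e (S :: L) ≤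
      ∑ S ∈ K, (if Hit e (S :: L) then 0 else (if (X e (S :: L) : ℝ) ≤ c then a ^ r else 0))
      + ∑ S ∈ K, b ^ r * Real.exp (lam * ((X e (S :: L) : ℝ) - c)) := by
    rw [← sum_add_distrib]
    refine sum_le_sum fun S _ => ?_
    unfold W
    by_cases h : Hit e (S :: L)
    · rw [if_pos h, if_pos h]
      positivity
    · rw [if_neg h, if_neg h]
  -- first sum
  have hfirst : ∑ S ∈ K, (if Hit e (S :: L) then 0 else
      (if (X e (S :: L) : ℝ) ≤ c then a ^ r else 0))
      ≤ N * (if (X e L : ℝ) ≤ c then a ^ (r + 1) else 0) := by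
    by_cases hXc : (X e L : ℝ) ≤ c
    · rw [if_pos hXc]
      have h1 : ∑ S ∈ K, (if Hit e (S :: L) then 0 else
          (if (X e (S :: L) : ℝ) ≤ c then a ^ r else 0))
          ≤ ∑ S ∈ K, (if ¬ Hit e (S :: L) then a ^ r else 0) := by
        refine sum_le_sum fun S _ => ?_
        by_cases h : Hit e (S :: L)
        · rw [if_pos h, if_neg (not_not.2 h)]
        · rw [if_neg h, if_pos h]
          split_ifs
          · exact le_rfl
          · positivity
      refine h1.trans ?_
      rw [← sum_filter, sum_const, nsmul_eq_mul]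
      -- many sets hit
      have h2 : ((univ.filter (fun x : Fin k → Bool => ∀ S' ∈ L, ¬ Disjoint (tr e x) S')).image
          (tr e)) ⊆ K.filter (fun S => Hit e (S :: L)) := by
        intro S hS
        obtain ⟨x, hx, rfl⟩ := mem_image.1 hS
        refine mem_filter.2 ⟨?_, Or.inr ⟨⟨x, rfl⟩, (mem_filter.1 hx).2⟩⟩
        rw [hK, mem_powersetCard_univ]
        exact card_tr he x
      have h3 : ∀ L' : List (Finset (Fin n)),
          2 ^ k ≤ (univ.filter (fun x : Fin k → Bool => ∀ S' ∈ L', ¬ Disjoint (tr e x) S')).card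
            + X e L' := by
        intro L'
        induction L' with
        | nil => simp [X]
        | cons S L' ih =>
          have h4 : univ.filter (fun x : Fin k → Bool => ∀ S' ∈ L', ¬ Disjoint (tr e x) S')
              ⊆ univ.filter (fun x : Fin k → Bool => ∀ S' ∈ S :: L', ¬ Disjoint (tr e x) S')
                ∪ univ.filter (fun x : Fin k → Bool => Disjoint (tr e x) S) := by
            intro x hx
            have hx := (mem_filter.1 hx).2
            by_cases hd : Disjoint (tr e x) S
            · exact mem_union_right _ (mem_filter.2 ⟨mem_univ _, hd⟩)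
            · refine mem_union_left _ (mem_filter.2 ⟨mem_univ _, ?_⟩)
              intro S' hS'
              rcases List.mem_cons.1 hS' with rfl | hS'
              · exact hd
              · exact hx S' hS'
          have h5 := (card_le_card h4).trans (card_union_le _ _)
          have h6 : X e (S :: L') = xs e S + X e L' := by
            unfold X; rw [List.map_cons, List.sum_cons]
          have h7 : xs e S = (univ.filter (fun x : Fin k → Bool => Disjoint (tr e x) S)).card := rfl
          omega
      have h4 := h3 L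
      have h5 := card_le_card h2
      rw [card_image_of_injective _ (tr_injective he)] at h5
      have h6 := card_filter_add_card_filter_not (s := K) (fun S => Hit e (S :: L))
      have h7 : ((K.filter (fun S => ¬ Hit e (S :: L))).card : ℝ) ≤ N - 1 / 4 * (2 : ℝ) ^ k := by
        have h8 : ((2 : ℝ) ^ k) ≤ ((K.filter (fun S => Hit e (S :: L))).card : ℝ) + (X e L : ℝ) := by
          have : 2 ^ k ≤ (K.filter (fun S => Hit e (S :: L))).card + X e L := by omega
          exact_mod_cast this
        have h9 : ((K.filter (fun S => Hit e (S :: L))).card : ℝ)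
            + ((K.filter (fun S => ¬ Hit e (S :: L))).card : ℝ) = (N : ℝ) := by
          rw [← hKc]; exact_mod_cast h6
        rw [hc] at hXc
        linarith
      have h10 : (N : ℝ) * a = N - 1 / 4 * (2 : ℝ) ^ k := by
        rw [ha]; field_simp
      calc ((K.filter (fun S => ¬ Hit e (S :: L))).card : ℝ) * a ^ r
          ≤ (N - 1 / 4 * (2 : ℝ) ^ k) * a ^ r :=
            mul_le_mul_of_nonneg_right h7 (by positivity)
        _ = N * a ^ (r + 1) := by rw [← h10, pow_succ]; ring
    · rw [if_neg hXc, mul_zero]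
      apply le_of_eq
      apply sum_eq_zero
      intro S _
      have : ¬ (X e (S :: L) : ℝ) ≤ c := by
        rw [hX]
        have : (0 : ℝ) ≤ (xs e S : ℝ) := Nat.cast_nonneg _
        push Not at hXc ⊢
        linarith
      rw [if_neg this]
      split_ifs <;> rfl
  -- second sum
  have hsecond : ∑ S ∈ K, b ^ r * Real.exp (lam * ((X e (S :: L) : ℝ) - c))
      ≤ N * (b ^ (r + 1) * Real.exp (lam * ((X e L : ℝ) - c))) := by
    have h1 : ∀ S ∈ K, b ^ r * Real.exp (lam * ((X e (S :: L) : ℝ) - c))
        ≤ b ^ r * Real.exp (lam * ((X e L : ℝ) - c)) * (1 + 2 * (lam * (xs e S : ℝ))) := by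
      intro S hS
      have h2 : lam * ((X e (S :: L) : ℝ) - c)
          = lam * ((X e L : ℝ) - c) + lam * (xs e S : ℝ) := by rw [hX]; ring
      rw [h2, Real.exp_add, ← mul_assoc]
      apply mul_le_mul_of_nonneg_left _ (by positivity)
      apply exp_le_two (by positivity)
      have h3 := xs_le he (mem_powersetCard_univ.1 hS)
      have h4 : (xs e S : ℝ) ≤ (2 : ℝ) ^ (n - 2 * k) := by exact_mod_cast h3
      rw [hlam, inv_mul_le_iff₀ (by positivity), mul_one]
      exact h4
    refine (sum_le_sum h1).trans ?_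
    rw [← mul_sum, sum_add_distrib, sum_const, hKc, nsmul_eq_mul, mul_one, ← mul_sum, ← mul_sum]
    have h5 : ∑ S ∈ K, (xs e S : ℝ) = (2 : ℝ) ^ k * D := by
      have := sum_xs he
      rw [hD]
      rw [hK]
      exact_mod_cast this
    rw [h5]
    have h6 : (N : ℝ) * b = N + 2 * (lam * ((2 : ℝ) ^ k * D)) := by
      rw [hb]; field_simp
    rw [← h6, pow_succ]
    apply le_of_eq
    ring
  refine hsplit.trans ((add_le_add hfirst hsecond).trans ?_)
  rw [← mul_add]
  apply mul_le_mul_of_nonneg_left _ hNpos.le
  unfold W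
  rw [if_neg hH]

/-- Iterating the step. -/
lemma iterate (E : Finset (Fin k × Bool → Fin n)) (hE : ∀ e ∈ E, Function.Injective e)
    (hkn : 2 * k ≤ n) {a b lam : ℝ} {N D : ℕ}
    (hN : N = n.choose k) (hD : D = (n - k).choose k)
    (hlam : lam = ((2 : ℝ) ^ (n - 2 * k))⁻¹)
    (ha : a = 1 - (2 : ℝ) ^ k / (4 * N)) (ha0 : 0 ≤ a)
    (hb : b = 1 + 2 * lam * (2 : ℝ) ^ k * D / N) (t : ℕ) :
    ∀ s ≤ t, ∃ L : List (Finset (Fin n)), (∀ S ∈ L, S.card = k) ∧
      ∑ e ∈ E, W a b lam (3 / 4 * (2 : ℝ) ^ k) (t - s) e L
        ≤ ∑ e ∈ E, W a b lam (3 / 4 * (2 : ℝ) ^ k) t e [] := by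
  classical
  intro s
  induction s with
  | zero => intro _; exact ⟨[], by simp, le_rfl⟩
  | succ s ih =>
    intro hs
    obtain ⟨L, hL, hle⟩ := ih (by omega)
    have hne : (powersetCard k (univ : Finset (Fin n))).Nonempty := by
      apply powersetCard_nonempty.2
      rw [card_univ, Fintype.card_fin]; omega
    obtain ⟨S, hS, hSle⟩ : ∃ S ∈ powersetCard k (univ : Finset (Fin n)),
        ∑ e ∈ E, W a b lam (3 / 4 * (2 : ℝ) ^ k) (t - (s + 1)) e (S :: L)
          ≤ ∑ e ∈ E, W a b lam (3 / 4 * (2 : ℝ) ^ k) (t - s) e L := by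
      by_contra hcon
      push Not at hcon
      have h1 := sum_lt_sum_of_nonempty hne hcon
      rw [sum_const, card_powersetCard, card_univ, Fintype.card_fin, ← hN, nsmul_eq_mul,
        sum_comm, mul_sum] at h1
      have h2 : ∑ e ∈ E, ∑ S ∈ powersetCard k (univ : Finset (Fin n)),
          W a b lam (3 / 4 * (2 : ℝ) ^ k) (t - (s + 1)) e (S :: L)
          ≤ ∑ e ∈ E, (N : ℝ) * W a b lam (3 / 4 * (2 : ℝ) ^ k) (t - s) e L := by
        refine sum_le_sum fun e he => ?_
        have := step (hE e he) hkn L (t - (s + 1)) hN hD hlam ha ha0 hb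
        rwa [show t - (s + 1) + 1 = t - s by omega] at this
      linarith
    refine ⟨S :: L, ?_, hSle.trans hle⟩
    intro S' hS'
    rcases List.mem_cons.1 hS' with rfl | hS'
    · exact mem_powersetCard_univ.1 hS
    · exact hL S' hS'

/-- The kept members of a list: those that meet all earlier (later in the list) ones. -/
def kept : List (Finset (Fin n)) → Finset (Finset (Fin n))
  | [] => ∅
  | S :: L => if ∀ S' ∈ L, ¬ Disjoint S S' then insert S (kept L) else kept L

lemma kept_subset (L : List (Finset (Fin n))) : ∀ S ∈ kept L, S ∈ L := by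
  induction L with
  | nil => intro S hS; simp [kept] at hS
  | cons S L ih =>
    intro S' hS'
    unfold kept at hS'
    split_ifs at hS' with h
    · rcases mem_insert.1 hS' with rfl | h'
      · exact List.mem_cons_self
      · exact List.mem_cons_of_mem _ (ih _ h')
    · exact List.mem_cons_of_mem _ (ih _ hS')

lemma kept_inter (L : List (Finset (Fin n))) (hL : ∀ S ∈ L, S.Nonempty) :
    ∀ S ∈ kept L, ∀ S' ∈ kept L, S ∩ S' ≠ ∅ := by
  induction L with
  | nil => intro S hS; simp [kept] at hS
  | cons S L ih =>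
    have ih := ih (fun S' hS' => hL S' (List.mem_cons_of_mem _ hS'))
    intro A hA B hB
    unfold kept at hA hB
    split_ifs at hA hB with h
    · rcases mem_insert.1 hA with hA1 | hA1
      · rcases mem_insert.1 hB with hB1 | hB1
        · rw [hA1, hB1, inter_self]
          exact (hL _ List.mem_cons_self).ne_empty
        · intro hd
          rw [hA1] at hd
          exact h B (kept_subset L B hB1) (disjoint_iff_inter_eq_empty.2 hd)
      · rcases mem_insert.1 hB with hB1 | hB1
        · intro hd
          rw [inter_comm, hB1] at hd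
          exact h A (kept_subset L A hA1) (disjoint_iff_inter_eq_empty.2 hd)
        · exact ih A hA1 B hB1
    · exact ih A hA B hB

lemma hit_kept {e : Fin k × Bool → Fin n} {L : List (Finset (Fin n))} (h : Hit e L) :
    ∃ x, tr e x ∈ kept L := by
  induction L with
  | nil => exact absurd h id
  | cons S L ih =>
    rcases h with h | ⟨⟨x, hx⟩, h⟩
    · obtain ⟨x, hx⟩ := ih h
      refine ⟨x, ?_⟩
      unfold kept
      split_ifs
      · exact mem_insert_of_mem hx
      · exact hx
    · refine ⟨x, ?_⟩
      unfold kept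
      rw [if_pos h, hx]
      exact mem_insert_self _ _

/-- Existence of the intersecting family, under a numerical hypothesis. -/
theorem exists_family (hk : 1 ≤ k) (hkn : 2 * k ≤ n) (t : ℕ)
    (ht1 : 4 * (n - k).choose k * t ≤ n.choose k) (ht2 : n.choose k ≤ 8 * (n - k).choose k * t)
    (h4 : (2 : ℝ) ^ k ≤ 4 * (n.choose k : ℝ))
    (hnum : ((n : ℝ) ^ (2 * k)) * (Real.exp (-((2 : ℝ) ^ k / (32 * ((n - k).choose k : ℝ))))
      + Real.exp (-((2 : ℝ) ^ k / (4 * (2 : ℝ) ^ (n - 2 * k))))) < 1) :
    ∃ G : Finset (Finset (Fin n)), (∀ A ∈ G, ∀ B ∈ G, A ∩ B ≠ ∅) ∧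
      ∀ e : Fin k × Bool → Fin n, Function.Injective e → ∃ x, tr e x ∈ G := by
  classical
  set N := n.choose k with hN
  set D := (n - k).choose k with hD
  have hNpos : 0 < (N : ℝ) := by
    rw [hN]; exact_mod_cast Nat.choose_pos (by omega)
  have hDpos : 0 < (D : ℝ) := by
    rw [hD]; exact_mod_cast Nat.choose_pos (by omega)
  set lam : ℝ := ((2 : ℝ) ^ (n - 2 * k))⁻¹ with hlam
  set a : ℝ := 1 - (2 : ℝ) ^ k / (4 * N) with ha
  set b : ℝ := 1 + 2 * lam * (2 : ℝ) ^ k * D / N with hb
  have ha0 : 0 ≤ a := by
    rw [ha, sub_nonneg, div_le_one (by positivity)]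
    exact h4
  set E : Finset (Fin k × Bool → Fin n) := univ.filter (fun e => Function.Injective e) with hE
  obtain ⟨L, hL, hle⟩ := iterate E (fun e he => (mem_filter.1 he).2) hkn hN hD hlam ha ha0 hb t
    t le_rfl
  rw [Nat.sub_self] at hle
  have hW0 : ∀ e : Fin k × Bool → Fin n, W a b lam (3 / 4 * (2 : ℝ) ^ k) t e []
      ≤ Real.exp (-((2 : ℝ) ^ k / (32 * (D : ℝ))))
        + Real.exp (-((2 : ℝ) ^ k / (4 * (2 : ℝ) ^ (n - 2 * k)))) := by
    intro e
    have h1 : ¬ Hit e [] := id
    have h2 : X e [] = 0 := rfl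
    unfold W
    rw [if_neg h1, h2, Nat.cast_zero, if_pos (by positivity)]
    have htR1 : 4 * (D : ℝ) * t ≤ N := by exact_mod_cast ht1
    have htR2 : (N : ℝ) ≤ 8 * D * t := by exact_mod_cast ht2
    apply add_le_add
    · -- a^t
      have h3 : a ≤ Real.exp (-((2 : ℝ) ^ k / (4 * N))) := by
        have := Real.add_one_le_exp (-((2 : ℝ) ^ k / (4 * N)))
        rw [ha]; linarith
      calc a ^ t ≤ (Real.exp (-((2 : ℝ) ^ k / (4 * N)))) ^ t := pow_le_pow_left₀ ha0 h3 t
        _ = Real.exp (t * (-((2 : ℝ) ^ k / (4 * N)))) := by rw [← Real.exp_nat_mul]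
        _ ≤ Real.exp (-((2 : ℝ) ^ k / (32 * (D : ℝ)))) := by
            apply Real.exp_le_exp.2
            rw [mul_neg, neg_le_neg_iff, mul_div_assoc', div_le_div_iff₀ (by positivity)
              (by positivity)]
            have hp : (0 : ℝ) < (2 : ℝ) ^ k := by positivity
            nlinarith
    · have h3 : b ≤ Real.exp (2 * lam * (2 : ℝ) ^ k * D / N) := by
        have := Real.add_one_le_exp (2 * lam * (2 : ℝ) ^ k * D / N)
        rw [hb]; linarith
      have hlampos : 0 < lam := by rw [hlam]; positivity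
      have hb0 : 0 ≤ b := by rw [hb]; positivity
      calc b ^ t * Real.exp (lam * (0 - 3 / 4 * (2 : ℝ) ^ k))
          ≤ (Real.exp (2 * lam * (2 : ℝ) ^ k * D / N)) ^ t
            * Real.exp (lam * (0 - 3 / 4 * (2 : ℝ) ^ k)) := by
            apply mul_le_mul_of_nonneg_right (pow_le_pow_left₀ hb0 h3 t) (Real.exp_pos _).le
        _ = Real.exp (t * (2 * lam * (2 : ℝ) ^ k * D / N)
            + lam * (0 - 3 / 4 * (2 : ℝ) ^ k)) := by rw [← Real.exp_nat_mul, ← Real.exp_add]
        _ ≤ Real.exp (-((2 : ℝ) ^ k / (4 * (2 : ℝ) ^ (n - 2 * k)))) := by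
            apply Real.exp_le_exp.2
            have h5 : (t : ℝ) * (2 * lam * (2 : ℝ) ^ k * D / N) ≤ lam * (2 : ℝ) ^ k / 2 := by
              rw [mul_div_assoc', div_le_div_iff₀ hNpos (by norm_num)]
              have hp : (0 : ℝ) < lam * (2 : ℝ) ^ k := by positivity
              nlinarith
            have h6 : (2 : ℝ) ^ k / (4 * (2 : ℝ) ^ (n - 2 * k)) = lam * (2 : ℝ) ^ k / 4 := by
              rw [hlam]; field_simp
            rw [h6]
            linarith
  have hsum : ∑ e ∈ E, W a b lam (3 / 4 * (2 : ℝ) ^ k) t e [] < 1 := by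
    refine lt_of_le_of_lt (sum_le_sum fun e _ => hW0 e) ?_
    rw [sum_const, nsmul_eq_mul]
    have hEc : (E.card : ℝ) ≤ (n : ℝ) ^ (2 * k) := by
      have : E.card ≤ n ^ (2 * k) := by
        refine (card_le_univ E).trans (le_of_eq ?_)
        rw [Fintype.card_fun, Fintype.card_prod, Fintype.card_bool, Fintype.card_fin,
          Fintype.card_fin, mul_comm k 2]
      exact_mod_cast this
    refine lt_of_le_of_lt ?_ hnum
    apply mul_le_mul_of_nonneg_right hEc
    positivity
  have hWnn : ∀ e ∈ E, 0 ≤ W a b lam (3 / 4 * (2 : ℝ) ^ k) 0 e L := by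
    intro e _
    unfold W
    split_ifs <;> positivity
  have hhit : ∀ e ∈ E, Hit e L := by
    intro e he
    by_contra hnot
    have h1 : 1 ≤ W a b lam (3 / 4 * (2 : ℝ) ^ k) 0 e L := by
      unfold W
      rw [if_neg hnot]
      by_cases hX : (X e L : ℝ) ≤ 3 / 4 * (2 : ℝ) ^ k
      · rw [if_pos hX, pow_zero, pow_zero, one_mul]
        have := Real.exp_pos (lam * ((X e L : ℝ) - 3 / 4 * (2 : ℝ) ^ k))
        linarith
      · rw [if_neg hX, pow_zero, one_mul, zero_add]
        push Not at hX
        apply Real.one_le_exp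
        have : 0 < lam := by rw [hlam]; positivity
        have : 0 ≤ (X e L : ℝ) - 3 / 4 * (2 : ℝ) ^ k := by linarith
        positivity
    have h2 := single_le_sum hWnn he
    linarith
  refine ⟨kept L, kept_inter L ?_, ?_⟩
  · intro S hS
    apply card_pos.1
    rw [hL S hS]; omega
  · intro e he
    exact hit_kept (hhit e (mem_filter.2 ⟨mem_univ _, he⟩))

end Q111.MatchHit
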