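import Mathlib

/-!
# Determinant-maximising completions: the basic inequality and uniqueness
-/

namespace Pool.Agent.Q111.MaxDet

open Matrix Finset
open scoped MatrixOrder

variable {ι : Type} [Fintype ι] [DecidableEq ι]

/-- AM-GM for the eigenvalues of a positive semidefinite matrix whose trace is its size. -/
theorem det_le_one_of_trace (S : Matrix ι ι ℝ) (hS : S.PosSemidef)
    (ht : S.trace = Fintype.card ι) : S.det ≤ 1 ∧ (S.det = 1 → S = 1) := by
  have h1 := hS.isHermitian.det_eq_prod_eigenvalues
  have h2 := hS.isHermitian.trace_eq_sum_eigenvalues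
  simp only [RCLike.ofReal_real_eq_id, id_eq] at h1 h2
  have hle : ∀ i, hS.isHermitian.eigenvalues i ≤ Real.exp (hS.isHermitian.eigenvalues i - 1) := by
    intro i
    have := Real.add_one_le_exp (hS.isHermitian.eigenvalues i - 1)
    linarith
  have hexp : ∏ i, Real.exp (hS.isHermitian.eigenvalues i - 1) = 1 := by
    rw [← Real.exp_sum, Finset.sum_sub_distrib, ← h2, ht]
    simp
  refine ⟨?_, ?_⟩
  · rw [h1, ← hexp]
    exact Finset.prod_le_prod (fun i _ => hS.eigenvalues_nonneg i) (fun i _ => hle i)
  · intro hdet
    have hpos : ∀ i, 0 < hS.isHermitian.eigenvalues i := by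
      intro i
      refine lt_of_le_of_ne (hS.eigenvalues_nonneg i) ?_
      intro h0
      have : ∏ i, hS.isHermitian.eigenvalues i = 0 :=
        Finset.prod_eq_zero (Finset.mem_univ i) h0.symm
      rw [← h1, hdet] at this
      exact one_ne_zero this
    have hall : ∀ i, hS.isHermitian.eigenvalues i = 1 := by
      by_contra hcon
      push Not at hcon
      obtain ⟨i, hi⟩ := hcon
      have hlt : ∏ i, hS.isHermitian.eigenvalues i
          < ∏ i, Real.exp (hS.isHermitian.eigenvalues i - 1) := by
        apply Finset.prod_lt_prod (fun i _ => hpos i) (fun i _ => hle i)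
        refine ⟨i, Finset.mem_univ i, ?_⟩
        have := Real.add_one_lt_exp (x := hS.isHermitian.eigenvalues i - 1)
          (by intro h; apply hi; linarith)
        linarith
      rw [← h1, hdet, hexp] at hlt
      exact lt_irrefl _ hlt
    have hsp := hS.isHermitian.spectral_theorem
    have hd : (diagonal (RCLike.ofReal ∘ hS.isHermitian.eigenvalues) : Matrix ι ι ℝ) = 1 := by
      rw [← diagonal_one]
      congr 1
      funext i
      simp [hall i]
    rw [hd] at hsp
    simpa using hsp

/-- Let `K` be positive definite and `K * A = 1`.  If `M` is positive semidefinite and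
`tr (K M) = n`, then `det M ≤ det A`, with equality only for `M = A`. -/
theorem det_le_of_trace (K A M : Matrix ι ι ℝ) (hK : K.PosDef) (hKA : K * A = 1)
    (hM : M.PosSemidef) (ht : (K * M).trace = Fintype.card ι) :
    M.det ≤ A.det ∧ (M.det = A.det → M = A) := by
  obtain ⟨B, hB⟩ := CStarAlgebra.nonneg_iff_eq_star_mul_self.mp hK.posSemidef.nonneg
  rw [star_eq_conjTranspose] at hB
  have hdK : K.det * A.det = 1 := by rw [← det_mul, hKA, det_one]
  have hKpos : 0 < K.det := hK.det_pos
  have hBdet : B.det * B.det = K.det := by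
    rw [hB, det_mul, det_conjTranspose]; simp
  have hBne : B.det ≠ 0 := by
    intro h0; rw [h0] at hBdet; simp at hBdet; exact hKpos.ne hBdet
  have h1 : (B * M * Bᴴ).PosSemidef := hM.mul_mul_conjTranspose_same B
  have h2 : (B * M * Bᴴ).trace = Fintype.card ι := by
    rw [← ht, hB, Matrix.trace_mul_comm, ← Matrix.mul_assoc]
  have h3 := det_le_one_of_trace _ h1 h2
  have hdet : (B * M * Bᴴ).det = K.det * M.det := by
    rw [det_mul, det_mul, det_conjTranspose, ← hBdet]; simp only [star_trivial]; ring
  rw [hdet] at h3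
  refine ⟨?_, ?_⟩
  · have : K.det * M.det ≤ K.det * A.det := by rw [hdK]; exact h3.1
    exact le_of_mul_le_mul_left this hKpos
  · intro heq
    have h4 : B * M * Bᴴ = 1 := h3.2 (by rw [heq, hdK])
    have hBu : IsUnit B.det := isUnit_iff_ne_zero.mpr hBne
    have h5 : (M * Bᴴ) * B = 1 := by
      have : B * (M * Bᴴ) = 1 := by rw [← Matrix.mul_assoc]; exact h4
      exact mul_eq_one_comm.mp this
    have h6 : M * K = 1 := by rw [hB, ← Matrix.mul_assoc]; exact h5
    calc M = M * (K * A) := by rw [hKA, mul_one]
      _ = (M * K) * A := by rw [Matrix.mul_assoc]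
      _ = A := by rw [h6, one_mul]

end Pool.Agent.Q111.MaxDet
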